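import Pool.Agent.H21.EHB.Final
import Pool.Agent.H10.ABY.Stmts

set_option autoImplicit false

namespace Pool.ABY

open Finset Pool.Agent.H98.ABCR Pool.SHA

/-- Weak effective height bound for all abc triples. -/
theorem ehb_thm : S_EHB := by
  refine ⟨5000, by norm_num, fun v hv => ?_⟩
  exact Pool.Agent.H21.EHB.bound v.1 v.2 hv.1 hv.2.1 hv.2.2

end Pool.ABY
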