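import Mathlib

set_option autoImplicit false

open Finset BigOperators

namespace Pool.Agent.H21.EHB

/-- Simultaneous Dirichlet approximation. -/
theorem dirichlet {ι : Type*} (S : Finset ι) (θ : ι → ℝ) (D : ℕ) (hD : 1 ≤ D) :
    ∃ q : ℕ, 1 ≤ q ∧ q ≤ D ^ S.card ∧ ∃ n : ι → ℤ, ∀ i ∈ S, |(q : ℝ) * θ i - n i| ≤ 1 / D := by
  classical
  have hDR : (0 : ℝ) < D := by exact_mod_cast hD
  have hcell : ∀ (q : ℕ) (i : ι), ⌊(D : ℝ) * Int.fract ((q : ℝ) * θ i)⌋₊ < D := by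
    intro q i
    rw [Nat.floor_lt (by have := Int.fract_nonneg ((q : ℝ) * θ i); positivity)]
    have := Int.fract_lt_one ((q : ℝ) * θ i)
    nlinarith
  let f : Fin (D ^ S.card + 1) → (S → Fin D) := fun q i =>
    ⟨⌊(D : ℝ) * Int.fract ((q : ℕ) * θ i)⌋₊, hcell q i⟩
  have hcard : Fintype.card (S → Fin D) < Fintype.card (Fin (D ^ S.card + 1)) := by
    rw [Fintype.card_fun, Fintype.card_fin, Fintype.card_fin, Fintype.card_coe]
    exact Nat.lt_succ_self _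
  obtain ⟨q₁, q₂, hne, hf⟩ := Fintype.exists_ne_map_eq_of_card_lt f hcard
  wlog hlt : q₁ < q₂ generalizing q₁ q₂ with H
  · exact H q₂ q₁ hne.symm hf.symm (lt_of_le_of_ne (not_lt.mp hlt) hne.symm)
  refine ⟨(q₂ : ℕ) - q₁, ?_, ?_, fun i => ⌊((q₂ : ℕ) : ℝ) * θ i⌋ - ⌊((q₁ : ℕ) : ℝ) * θ i⌋, ?_⟩
  · have : (q₁ : ℕ) < q₂ := hlt
    omega
  · have := q₂.isLt
    omega
  · intro i hi
    have h1 := congrFun hf ⟨i, hi⟩
    simp only [f, Fin.mk.injEq] at h1
    set u := Int.fract (((q₁ : ℕ) : ℝ) * θ i) with hu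
    set v := Int.fract (((q₂ : ℕ) : ℝ) * θ i) with hv
    have hle : (q₁ : ℕ) ≤ q₂ := le_of_lt hlt
    have h2 : (((q₂ : ℕ) - (q₁ : ℕ) : ℕ) : ℝ) * θ i
        - ((⌊((q₂ : ℕ) : ℝ) * θ i⌋ - ⌊((q₁ : ℕ) : ℝ) * θ i⌋ : ℤ) : ℝ) = v - u := by
      rw [hu, hv, Int.fract, Int.fract, Nat.cast_sub hle]
      push_cast
      ring
    rw [h2]
    have hu0 : 0 ≤ u := Int.fract_nonneg _
    have hv0 : 0 ≤ v := Int.fract_nonneg _
    have e1 := Nat.floor_le (show 0 ≤ (D : ℝ) * u by positivity)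
    have e2 := Nat.lt_floor_add_one ((D : ℝ) * u)
    have e3 := Nat.floor_le (show 0 ≤ (D : ℝ) * v by positivity)
    have e4 := Nat.lt_floor_add_one ((D : ℝ) * v)
    rw [h1] at e1 e2
    rw [le_div_iff₀ hDR, ← abs_of_pos hDR, ← abs_mul]
    apply abs_le.mpr
    constructor <;> nlinarith

/-- Division with small remainders. -/
theorem small_remainders {ι : Type*} (S : Finset ι) (e : ι → ℤ) (ρ H G : ℝ) (hρ : 1 ≤ ρ)
    (he : ∀ i ∈ S, |(e i : ℝ)| ≤ H) (hG : 4 * ρ + 1 ≤ G) (hG2 : 4 * ρ * H ≤ (G - 1) ^ 2) :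
    ∃ g : ℕ, ∃ q s : ι → ℤ, (∀ i ∈ S, e i = g * q i + s i) ∧
      (∀ i ∈ S, |(s i : ℝ)| ≤ g / ρ) ∧ G - 1 ≤ g ∧ (g : ℝ) ≤ G * (4 * ρ + 1) ^ S.card := by
  have hρ0 : 0 < ρ := by linarith
  have hG0 : 0 < G := by linarith
  set D : ℕ := ⌈4 * ρ⌉₊ with hD
  have hDl : 4 * ρ ≤ D := Nat.le_ceil _
  have hDu : (D : ℝ) < 4 * ρ + 1 := Nat.ceil_lt_add_one (by positivity)
  have hD1 : 1 ≤ D := by
    have : (1 : ℝ) ≤ D := by linarith
    exact_mod_cast this
  have hDR : (0 : ℝ) < D := by linarith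
  set E : ℝ := G * (D : ℝ) ^ S.card with hE
  have hE0 : 0 < E := by positivity
  obtain ⟨k, hk1, hk2, n, hn⟩ := dirichlet S (fun i => (e i : ℝ) / E) D hD1
  have hkR : (1 : ℝ) ≤ k := by exact_mod_cast hk1
  have hk0 : (0 : ℝ) < k := by linarith
  have hkD : (k : ℝ) ≤ (D : ℝ) ^ S.card := by exact_mod_cast hk2
  have hEk : G ≤ E / k := by
    rw [le_div_iff₀ hk0, hE]
    exact mul_le_mul_of_nonneg_left hkD hG0.le
  set g : ℕ := ⌊E / k⌋₊ with hg
  have hgu : (g : ℝ) ≤ E / k := Nat.floor_le (by positivity)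
  have hgl : E / k < g + 1 := Nat.lt_floor_add_one _
  have hgG : G - 1 ≤ g := by linarith
  have hg0 : (0 : ℝ) < g := by linarith
  refine ⟨g, n, fun i => e i - g * n i, fun i _ => by ring, ?_, hgG, ?_⟩
  · intro i hi
    have h1 := hn i hi
    -- e i - (E/k) n = (E/k) (k θ - n)
    have h2 : ((e i - g * n i : ℤ) : ℝ) = (E / k) * ((k : ℝ) * ((e i : ℝ) / E) - n i)
        + (E / k - g) * n i := by
      push_cast
      field_simp
      ring
    have h3 : |(E / k) * ((k : ℝ) * ((e i : ℝ) / E) - n i)| ≤ (g + 1) / D := by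
      rw [abs_mul, abs_of_pos (by positivity : 0 < E / k)]
      calc E / k * |(k : ℝ) * ((e i : ℝ) / E) - n i| ≤ (g + 1) * (1 / D) :=
            mul_le_mul hgl.le h1 (abs_nonneg _) (by positivity)
        _ = (g + 1) / D := by ring
    have h4 : |(n i : ℝ)| ≤ H / g + 1 := by
      have e1 : |(n i : ℝ)| ≤ |(k : ℝ) * ((e i : ℝ) / E)| + 1 / D := by
        have := abs_sub_abs_le_abs_sub (n i : ℝ) ((k : ℝ) * ((e i : ℝ) / E))
        rw [abs_sub_comm] at this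
        linarith
      have e2 : |(k : ℝ) * ((e i : ℝ) / E)| ≤ H / g := by
        rw [abs_mul, abs_div, abs_of_pos hk0, abs_of_pos hE0]
        have e3 : (k : ℝ) * (|(e i : ℝ)| / E) = |(e i : ℝ)| / (E / k) := by
          field_simp
        rw [e3]
        have hH0 : 0 ≤ H := (abs_nonneg _).trans (he i hi)
        exact div_le_div₀ hH0 (he i hi) hg0 hgu
      have e3 : (1 : ℝ) / D ≤ 1 := by
        rw [div_le_one hDR]; exact_mod_cast hD1
      linarith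
    have h5 : |(E / k - g) * (n i : ℝ)| ≤ H / g + 1 := by
      rw [abs_mul]
      have e1 : |E / k - g| ≤ 1 := by
        rw [abs_of_nonneg (by linarith)]; linarith
      calc |E / k - g| * |(n i : ℝ)| ≤ 1 * (H / g + 1) :=
            mul_le_mul e1 h4 (abs_nonneg _) zero_le_one
        _ = H / g + 1 := one_mul _
    have h6 : |((e i - g * n i : ℤ) : ℝ)| ≤ (g + 1) / D + (H / g + 1) := by
      rw [h2]
      exact (abs_add_le _ _).trans (add_le_add h3 h5)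
    refine h6.trans ?_
    -- estimates
    have hg4 : 4 * ρ ≤ g := by linarith
    have f1 : ((g : ℝ) + 1) / D ≤ g / (2 * ρ) := by
      rw [div_le_div_iff₀ hDR (by positivity)]
      nlinarith
    have f2 : H / g ≤ g / (4 * ρ) := by
      rw [div_le_div_iff₀ hg0 (by positivity)]
      have : (G - 1) ^ 2 ≤ (g : ℝ) ^ 2 := pow_le_pow_left₀ (by linarith) hgG 2
      nlinarith
    have f3 : (1 : ℝ) ≤ g / (4 * ρ) := by
      rw [le_div_iff₀ (by positivity)]; linarith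
    have f4 : (g : ℝ) / (2 * ρ) + (g / (4 * ρ) + g / (4 * ρ)) = g / ρ := by
      field_simp; ring
    linarith
  · calc (g : ℝ) ≤ E / k := hgu
      _ ≤ E / 1 := div_le_div_of_nonneg_left hE0.le one_pos hkR
      _ = G * (D : ℝ) ^ S.card := by rw [div_one]
      _ ≤ G * (4 * ρ + 1) ^ S.card := by
          apply mul_le_mul_of_nonneg_left _ hG0.le
          exact pow_le_pow_left₀ hDR.le hDu.le _

end Pool.Agent.H21.EHB
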