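import Pool.Agent.H21.EHB.TwoLog
import Pool.Agent.H21.EHB.Dir

set_option autoImplicit false

open Finset BigOperators

namespace Pool.Agent.H21.EHB

/-- the product of prime powers with the nonnegative parts of given exponents -/
def pr (S : Finset ℕ) (f : ℕ → ℤ) : ℕ := ∏ p ∈ S, p ^ (f p).toNat

theorem fact_prod (S : Finset ℕ) (hS : ∀ p ∈ S, p.Prime) (f : ℕ → ℕ) (p : ℕ) (hp : p ∈ S) :
    (∏ q ∈ S, q ^ (f q)).factorization p = f p := by
  classical
  rw [Nat.factorization_prod (fun q hq => pow_ne_zero _ (hS q hq).ne_zero)]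
  rw [Finsupp.finset_sum_apply]
  rw [Finset.sum_eq_single p]
  · rw [Nat.factorization_pow]
    simp [(hS p hp).factorization]
  · intro q hq hqp
    rw [Nat.factorization_pow, (hS q hq).factorization]
    simp [hqp]
  · intro h; exact absurd hp h

theorem prod_inj (S : Finset ℕ) (hS : ∀ p ∈ S, p.Prime) (f f' : ℕ → ℕ)
    (h : ∏ q ∈ S, q ^ (f q) = ∏ q ∈ S, q ^ (f' q)) : ∀ p ∈ S, f p = f' p := by
  intro p hp
  rw [← fact_prod S hS f p hp, h, fact_prod S hS f' p hp]

theorem self_prod (S : Finset ℕ) (n : ℕ) (hn : n ≠ 0) (hS : n.primeFactors ⊆ S)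
    : ∏ q ∈ S, q ^ (n.factorization q) = n := by
  classical
  conv_rhs => rw [← Nat.prod_factorization_pow_eq_self hn]
  rw [Finsupp.prod, Nat.support_factorization]
  symm
  apply Finset.prod_subset hS
  intro q _ hq
  rw [← Nat.support_factorization, Finsupp.notMem_support_iff] at hq
  rw [hq, pow_zero]

theorem log_prod (S : Finset ℕ) (hS : ∀ p ∈ S, p.Prime) (f : ℕ → ℕ) :
    Real.log ((∏ q ∈ S, q ^ (f q) : ℕ) : ℝ) = ∑ q ∈ S, (f q : ℝ) * Real.log q := by
  push_cast
  rw [Real.log_prod (fun q hq => pow_ne_zero _ (by exact_mod_cast (hS q hq).ne_zero))]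
  exact Finset.sum_congr rfl (fun q _ => Real.log_pow _ _)

/-- Lifting the exponent. -/
theorem lte (t : ℕ) (ht : t.Prime) (U W : ℤ) (h1 : (t : ℤ) ∣ U - W) (h4 : t = 2 → (4 : ℤ) ∣ U - W)
    (h2 : ¬ (t : ℤ) ∣ U) (n x : ℕ) (hx : (t : ℤ) ^ x ∣ U ^ n - W ^ n) :
    (t : ℤ) ^ x ∣ (U - W) * n := by
  have hp : Prime (t : ℤ) := Nat.prime_iff_prime_int.mp ht
  have key : emultiplicity (t : ℤ) (U ^ n - W ^ n)
      = emultiplicity (t : ℤ) (U - W) + emultiplicity (t : ℤ) (n : ℤ) := by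
    rcases ht.eq_two_or_odd' with h | h
    · subst h
      have := Int.two_pow_sub_pow' (x := U) (y := W) n (h4 rfl) (by exact_mod_cast h2)
      exact_mod_cast this
    · have := Int.emultiplicity_pow_sub_pow ht h h1 h2 n
      rw [this, Int.natCast_emultiplicity]
  rw [pow_dvd_iff_le_emultiplicity] at hx ⊢
  rw [emultiplicity_mul hp, ← key]
  exact hx

end Pool.Agent.H21.EHB
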