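import Mathlib

/-!
# Elementary interpolation determinants: divisibility

A tool towards a (known) weak effective height bound for `a + b = c`.
-/

set_option autoImplicit false

open Finset BigOperators

namespace Pool.Agent.H21.EHB

section Det

variable {R : Type*} [CommRing R] {ι κ : Type*} [Fintype ι] [DecidableEq ι] [Fintype κ]

/-- Expansion of the determinant of a product over maps. -/
theorem det_mul_expand (A : Matrix ι κ R) (B : Matrix κ ι R) :
    (A * B).det = ∑ f : ι → κ, (∏ i, A i (f i)) * Matrix.det (fun i j => B (f i) j) := by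
  have h1 : (A * B) = fun i => ∑ c, A i c • B c := by
    ext i j
    simp [Matrix.mul_apply, Finset.sum_apply]
  have h2 : (A * B).det = Matrix.detRowAlternating (fun i => ∑ c, A i c • B c) := by
    rw [h1]; rfl
  rw [h2]
  have h3 := MultilinearMap.map_sum
    (Matrix.detRowAlternating (R := R) (n := ι)).toMultilinearMap
    (α := fun _ : ι => κ) (g := fun i c => A i c • B c)
  have h4 : (Matrix.detRowAlternating (fun i => ∑ c, A i c • B c) : R)
      = (Matrix.detRowAlternating (R := R) (n := ι)).toMultilinearMap
        (fun i => ∑ c, A i c • B c) := rfl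
  rw [h4, h3]
  refine Finset.sum_congr rfl (fun f _ => ?_)
  rw [MultilinearMap.map_smul_univ]
  rfl

/-- Divisibility of the determinant of a product. -/
theorem dvd_det_mul (A : Matrix ι κ R) (B : Matrix κ ι R) (π : R) (v : ι → κ → ℕ)
    (hv : ∀ i c, π ^ (v i c) ∣ A i c) (V : ℕ)
    (hV : ∀ f : ι → κ, Function.Injective f → V ≤ ∑ i, v i (f i)) :
    π ^ V ∣ (A * B).det := by
  rw [det_mul_expand]
  refine Finset.dvd_sum (fun f _ => ?_)
  by_cases hf : Function.Injective f
  · refine Dvd.dvd.mul_right ?_ _
    have h1 : ∏ i, π ^ (v i (f i)) ∣ ∏ i, A i (f i) :=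
      Finset.prod_dvd_prod_of_dvd _ _ (fun i _ => hv i (f i))
    rw [Finset.prod_pow_eq_pow_sum] at h1
    exact (pow_dvd_pow π (hV f hf)).trans h1
  · have h0 : Matrix.det (fun i j => B (f i) j) = 0 := by
      rw [Function.Injective] at hf
      push Not at hf
      obtain ⟨i, j, hij, hne⟩ := hf
      exact Matrix.det_zero_of_row_eq hne (by funext k; simp [hij])
    rw [h0, mul_zero]
    exact dvd_zero _

omit [DecidableEq ι] in
/-- A combinatorial lower bound. -/
theorem sum_lower (g : ι → ℕ)
    (hg : ∀ i j, g i < Fintype.card ι → g i = g j → i = j) :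
    ∑ m ∈ range (Fintype.card ι), m ≤ ∑ i, g i := by
  classical
  set N := Fintype.card ι with hN
  -- number of `i` with `g i ≤ m` is at most `m + 1`
  have hcount : ∀ m, m < N → ((univ : Finset ι).filter (fun i => g i ≤ m)).card ≤ m + 1 := by
    intro m hm
    have h1 : (((univ : Finset ι).filter (fun i => g i ≤ m)).image g).card
        = ((univ : Finset ι).filter (fun i => g i ≤ m)).card := by
      apply Finset.card_image_of_injOn
      intro i hi j hj hij
      simp only [coe_filter, mem_univ, true_and, Set.mem_ofPred_eq] at hi hj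
      exact hg i j (lt_of_le_of_lt hi hm) hij
    rw [← h1]
    calc (((univ : Finset ι).filter (fun i => g i ≤ m)).image g).card
        ≤ (range (m + 1)).card := by
          apply Finset.card_le_card
          intro x hx
          simp only [mem_image, mem_filter, mem_univ, true_and] at hx
          obtain ⟨i, hi, rfl⟩ := hx
          exact mem_range.mpr (Nat.lt_succ_of_le hi)
      _ = m + 1 := card_range _
  have h2 : ∀ i, ((range N).filter (fun m => m < g i)).card ≤ g i := by
    intro i
    calc ((range N).filter (fun m => m < g i)).card ≤ (range (g i)).card := by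
          apply Finset.card_le_card
          intro x hx
          simp only [mem_filter, mem_range] at hx
          exact mem_range.mpr hx.2
      _ = g i := card_range _
  have h3 : ∑ i, ((range N).filter (fun m => m < g i)).card
      = ∑ m ∈ range N, ((univ : Finset ι).filter (fun i => m < g i)).card := by
    simp only [Finset.card_filter]
    rw [Finset.sum_comm]
  have h4 : ∀ m ∈ range N, N - (m + 1) ≤ ((univ : Finset ι).filter (fun i => m < g i)).card := by
    intro m hm
    have hm' := mem_range.mp hm
    have h5 : ((univ : Finset ι).filter (fun i => g i ≤ m)).card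
        + ((univ : Finset ι).filter (fun i => ¬ g i ≤ m)).card = N := by
      rw [Finset.card_filter_add_card_filter_not, Finset.card_univ]
    have h6 := hcount m hm'
    have h7 : ((univ : Finset ι).filter (fun i => ¬ g i ≤ m))
        = ((univ : Finset ι).filter (fun i => m < g i)) := by
      ext i; simp
    rw [h7] at h5
    omega
  calc ∑ m ∈ range N, m = ∑ m ∈ range N, (N - 1 - m) := (Finset.sum_range_reflect (fun m => m) N).symm
    _ = ∑ m ∈ range N, (N - (m + 1)) := by
        refine Finset.sum_congr rfl (fun m _ => ?_); omega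
    _ ≤ ∑ m ∈ range N, ((univ : Finset ι).filter (fun i => m < g i)).card := Finset.sum_le_sum h4
    _ = ∑ i, ((range N).filter (fun m => m < g i)).card := h3.symm
    _ ≤ ∑ i, g i := Finset.sum_le_sum (fun i _ => h2 i)

end Det

section Binom

variable {R : Type*} [CommRing R]

/-- Expansion of `z ^ k u ^ z`, `u ≡ 1 mod π`, in binomial coefficients. -/
theorem binom_expand (π u : R) (hu : π ∣ u - 1) (k : ℕ) :
    ∃ c : ℕ → R, (∀ n, π ^ (n - k) ∣ c n) ∧
      ∀ z : ℕ, (z : R) ^ k * u ^ z = ∑ n ∈ range (z + 1), c n * (z.choose n : R) := by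
  induction k with
  | zero =>
    refine ⟨fun n => (u - 1) ^ n, fun n => ?_, fun z => ?_⟩
    · simpa using pow_dvd_pow_of_dvd hu n
    · have := add_pow (u - 1) 1 z
      simp only [one_pow, mul_one] at this
      rw [pow_zero, one_mul]
      have h2 : u - 1 + 1 = u := by ring
      rw [h2] at this
      exact this
  | succ k ih =>
    obtain ⟨c, hc, hz⟩ := ih
    refine ⟨fun n => (n : R) * (c n + c (n - 1)), fun n => ?_, fun z => ?_⟩
    · rcases n with _ | n
      · simp
      · refine Dvd.dvd.mul_left (dvd_add ?_ ?_) _
        · exact (pow_dvd_pow π (by omega)).trans (hc (n + 1))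
        · have : n + 1 - (k + 1) = n - k := by omega
          rw [this]
          exact hc n
    · have h1 : (z : R) ^ (k + 1) * u ^ z = (z : R) * ((z : R) ^ k * u ^ z) := by ring
      rw [h1, hz z, Finset.mul_sum]
      -- z * C(z,n) = n C(z,n) + (n+1) C(z,n+1)
      have key : ∀ n, (z : R) * (z.choose n : R) = (n : R) * (z.choose n : R)
          + ((n : R) + 1) * (z.choose (n + 1) : R) := by
        intro n
        have h2 : z * z.choose n = n * z.choose n + (n + 1) * z.choose (n + 1) := by
          rcases le_or_gt n z with hle | hlt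
          · have h3 := Nat.choose_succ_right_eq z n
            -- choose z (n+1) * (n+1) = choose z n * (z - n)
            obtain ⟨d, rfl⟩ := Nat.exists_eq_add_of_le hle
            have h4 : n + d - n = d := by omega
            rw [h4] at h3
            nlinarith [h3]
          · rw [Nat.choose_eq_zero_of_lt hlt, Nat.choose_eq_zero_of_lt (by omega : z < n + 1)]
            simp
        have h5 := congrArg (fun x : ℕ => (x : R)) h2
        push_cast at h5
        exact h5
      have h3 : ∑ n ∈ range (z + 1), (z : R) * (c n * (z.choose n : R))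
          = ∑ n ∈ range (z + 1), ((n : R) * c n * (z.choose n : R))
            + ∑ n ∈ range (z + 1), (((n : R) + 1) * c n * (z.choose (n + 1) : R)) := by
        rw [← Finset.sum_add_distrib]
        refine Finset.sum_congr rfl (fun n _ => ?_)
        have := key n
        calc (z : R) * (c n * (z.choose n : R)) = c n * ((z : R) * (z.choose n : R)) := by ring
          _ = c n * ((n : R) * (z.choose n : R) + ((n : R) + 1) * (z.choose (n + 1) : R)) := by
              rw [this]
          _ = _ := by ring
      rw [h3]
      have h4 : ∑ n ∈ range (z + 1), (((n : R) + 1) * c n * (z.choose (n + 1) : R))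
          = ∑ n ∈ range (z + 1), ((n : R) * c (n - 1) * (z.choose n : R)) := by
        rw [Finset.sum_range_succ, Nat.choose_eq_zero_of_lt (by omega : z < z + 1)]
        rw [Finset.sum_range_succ' (fun n => ((n : R) * c (n - 1) * (z.choose n : R)))]
        simp
      rw [h4, ← Finset.sum_add_distrib]
      refine Finset.sum_congr rfl (fun n _ => ?_)
      ring

/-- `binom_expand` with a large range. -/
theorem binom_expand' (π u : R) (hu : π ∣ u - 1) (k Z : ℕ) :
    ∃ c : ℕ → R, (∀ n, π ^ (n - k) ∣ c n) ∧
      ∀ z : ℕ, z ≤ Z → (z : R) ^ k * u ^ z = ∑ n : Fin (Z + 1), c n * (z.choose n : R) := by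
  obtain ⟨c, hc, hz⟩ := binom_expand π u hu k
  refine ⟨c, hc, fun z hzZ => ?_⟩
  rw [hz z, ← Finset.sum_range (fun n => c n * (z.choose n : R))]
  apply Finset.sum_subset
  · intro x hx
    have := mem_range.mp hx
    exact mem_range.mpr (by omega)
  · intro x _ hx
    have hx' : z < x := by
      by_contra hcon
      exact hx (mem_range.mpr (by omega))
    rw [Nat.choose_eq_zero_of_lt hx']
    simp

end Binom

section Minor

variable {R : Type*} [CommRing R] {ι : Type*} [Fintype ι] [DecidableEq ι]

/-- The determinant of a matrix with entries `z_j ^ k_i u_i ^ z_j + π ^ x G i j`, where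
`u_i ≡ 1 mod π`, is divisible by a high power of `π`. -/
theorem minor_dvd (π : R) (u : ι → R) (hu : ∀ i, π ∣ u i - 1) (kk : ι → ℕ) (z : ι → ℕ)
    (x : ℕ) (hx : Fintype.card ι ≤ x) (G : ι → ι → R) (V : ℕ)
    (hV : V + ∑ i, kk i ≤ ∑ m ∈ range (Fintype.card ι), m) :
    π ^ V ∣ Matrix.det (Matrix.of
      (fun i j => (z j : R) ^ (kk i) * u i ^ (z j) + π ^ x * G i j)) := by
  classical
  obtain ⟨Z, hZ⟩ : ∃ Z, ∀ j, z j ≤ Z :=
    ⟨∑ j, z j, fun j => Finset.single_le_sum (f := z) (fun _ _ => Nat.zero_le _) (mem_univ j)⟩
  choose c hc hz using fun i => binom_expand' π (u i) (hu i) (kk i) Z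
  let A : Matrix ι (Fin (Z + 1) ⊕ ι) R := fun i s => Sum.elim (fun n : Fin (Z + 1) => c i n)
    (fun j : ι => if i = j then π ^ x else 0) s
  let B : Matrix (Fin (Z + 1) ⊕ ι) ι R := fun s j => Sum.elim
    (fun n : Fin (Z + 1) => (((z j).choose n : ℕ) : R)) (fun i : ι => G i j) s
  let v : ι → (Fin (Z + 1) ⊕ ι) → ℕ := fun i s => Sum.elim
    (fun n : Fin (Z + 1) => (n : ℕ) - kk i) (fun _ => x) s
  have hAB : Matrix.of (fun i j => (z j : R) ^ (kk i) * u i ^ (z j) + π ^ x * G i j)
      = A * B := by
    ext i j
    rw [Matrix.mul_apply, Fintype.sum_sum_type]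
    simp only [A, B, Sum.elim_inl, Sum.elim_inr, Matrix.of_apply]
    rw [hz i (z j) (hZ j)]
    congr 1
    rw [Finset.sum_eq_single i]
    · simp
    · intro b _ hb
      rw [if_neg (Ne.symm hb), zero_mul]
    · intro h; exact absurd (mem_univ i) h
  rw [hAB]
  refine dvd_det_mul A B π v ?_ V ?_
  · rintro i (n | j)
    · exact hc i n
    · simp only [A, v, Sum.elim_inr]
      by_cases h : i = j
      · rw [if_pos h]
      · rw [if_neg h]; exact dvd_zero _
  · intro f hf
    let g : ι → ℕ := fun i => Sum.elim (fun n : Fin (Z + 1) => (n : ℕ))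
      (fun _ => Fintype.card ι) (f i)
    have h1 : ∑ m ∈ range (Fintype.card ι), m ≤ ∑ i, g i := by
      apply sum_lower
      intro i j hi hij
      apply hf
      rcases hfi : f i with n | a
      · rcases hfj : f j with m | b
        · simp only [g, hfi, hfj, Sum.elim_inl] at hij
          rw [Fin.ext hij]
        · simp only [g, hfi, hfj, Sum.elim_inl, Sum.elim_inr] at hij hi
          omega
      · simp only [g, hfi, Sum.elim_inr] at hi
        omega
    have h2 : ∀ i, g i ≤ v i (f i) + kk i := by
      intro i
      rcases hfi : f i with n | a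
      · simp only [g, v, hfi, Sum.elim_inl]
        omega
      · simp only [g, v, hfi, Sum.elim_inr]
        omega
    have h3 : ∑ i, g i ≤ ∑ i, v i (f i) + ∑ i, kk i := by
      rw [← Finset.sum_add_distrib]
      exact Finset.sum_le_sum (fun i _ => h2 i)
    omega

end Minor

end Pool.Agent.H21.EHB
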