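import Pool.Agent.H21.EHB.Step

set_option autoImplicit false

open Finset BigOperators

namespace Pool.Agent.H21.EHB

theorem log_le_of_le_exp (y : ℝ) (n : ℕ) (hy : 0 < y) (h : y ≤ (2.7182818283 : ℝ) ^ n) :
    Real.log y ≤ n := by
  have h1 : (2.7182818283 : ℝ) ^ n ≤ Real.exp n := by
    calc (2.7182818283 : ℝ) ^ n ≤ (Real.exp 1) ^ n :=
          pow_le_pow_left₀ (by norm_num) Real.exp_one_gt_d9.le _
      _ = Real.exp n := by rw [← Real.exp_nat_mul]; simp
  calc Real.log y ≤ Real.log (Real.exp n) := Real.log_le_log hy (h.trans h1)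
    _ = n := Real.log_exp _

/-- Upper bound for `g`. -/
theorem g_bound (Lr ℓ h P ρ G g : ℝ) (k : ℕ) (hLr1 : 1 ≤ Lr) (hℓb : 5000 * Lr ^ 2 < ℓ)
    (hhexp : Real.exp ℓ = h) (hP0 : 0 < P) (hlogP : Real.log P ≤ 2 * Lr)
    (hρ : ρ = 200000000 * (P ^ 2 * Lr ^ 3 * ℓ ^ 2)) (hmon1 : 1 ≤ P ^ 2 * Lr ^ 3 * ℓ ^ 2)
    (hG : G = 4 * ρ + 1 + 3 * Real.sqrt (ρ * h)) (hk : (k : ℝ) ≤ 2 * Lr)
    (hgu : g ≤ G * (4 * ρ + 1) ^ k) : g ≤ h / 2 := by
  have hLr0 : 0 < Lr := by linarith
  have hLr2 : 1 ≤ Lr ^ 2 := one_le_pow₀ hLr1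
  have hLrsq : Lr ≤ Lr ^ 2 := by nlinarith only [hLr1]
  have hℓ5000 : 5000 ≤ ℓ := by linarith
  have hℓ0 : 0 < ℓ := by linarith
  have hh0 : 0 < h := by rw [← hhexp]; exact Real.exp_pos _
  have hρbig : 200000000 ≤ ρ := by rw [hρ]; linarith
  have hρ0 : 0 < ρ := by linarith
  set lam : ℝ := Real.log (8 * ρ) with hlam
  obtain ⟨y, hy0, hyℓ⟩ : ∃ y : ℝ, 0 < y ∧ y ^ 2 = ℓ :=
    ⟨Real.sqrt ℓ, Real.sqrt_pos.mpr hℓ0, Real.sq_sqrt hℓ0.le⟩
  have hLy : 70 * Lr ≤ y := by
    by_contra hc1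
    push Not at hc1
    have : y ^ 2 < (70 * Lr) ^ 2 := pow_lt_pow_left₀ hc1 hy0.le (by norm_num)
    rw [mul_pow] at this
    linarith
  have hlogℓ : Real.log ℓ ≤ 2 * y := by
    rw [← hyℓ, Real.log_pow]
    have := Real.log_le_sub_one_of_pos hy0
    push_cast
    linarith
  have hlamb : lam ≤ 29 * Lr + 2 * Real.log ℓ := by
    have e1 : 8 * ρ = 1600000000 * (P ^ 2 * Lr ^ 3 * ℓ ^ 2) := by rw [hρ]; ring
    rw [hlam, e1, Real.log_mul (by norm_num) (by positivity),
      Real.log_mul (by positivity) (by positivity), Real.log_mul (by positivity) (by positivity),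
      Real.log_pow, Real.log_pow, Real.log_pow]
    have e2 : Real.log 1600000000 ≤ 22 := log_le_of_le_exp _ 22 (by norm_num) (by norm_num)
    have e3 : Real.log Lr ≤ Lr := by
      have := Real.log_le_sub_one_of_pos hLr0
      linarith
    push_cast
    linarith
  have hlam0 : 0 ≤ lam := Real.log_nonneg (by linarith)
  have hmain : 3 * Lr * lam + 1 ≤ ℓ / 2 := by
    have e1 : 3 * Lr * lam ≤ 3 * Lr * (29 * Lr + 2 * Real.log ℓ) :=
      mul_le_mul_of_nonneg_left hlamb (by positivity)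
    have e2 : Lr * Real.log ℓ ≤ (y / 70) * (2 * y) := by
      have f1 : Lr ≤ y / 70 := by linarith
      have f2 : 0 ≤ Real.log ℓ := Real.log_nonneg (by linarith)
      exact mul_le_mul f1 hlogℓ f2 (by positivity)
    have e3 : (y / 70) * (2 * y) = ℓ / 35 := by rw [← hyℓ]; ring
    have e4 : 3 * Lr * (29 * Lr + 2 * Real.log ℓ) = 87 * Lr ^ 2 + 6 * (Lr * Real.log ℓ) := by ring
    linarith
  have hG8 : G ≤ 8 * ρ * Real.exp (ℓ / 2) := by
    have e1 : Real.sqrt (ρ * h) ≤ ρ * Real.exp (ℓ / 2) := by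
      apply Real.sqrt_le_iff.mpr
      refine ⟨by positivity, ?_⟩
      have e2 : (ρ * Real.exp (ℓ / 2)) ^ 2 = ρ ^ 2 * h := by
        rw [mul_pow, ← Real.exp_nat_mul, ← hhexp]
        congr 2
        push_cast; ring
      rw [e2]
      have : ρ ≤ ρ ^ 2 := by nlinarith only [hρbig]
      exact mul_le_mul_of_nonneg_right this hh0.le
    have e2 : (1 : ℝ) ≤ Real.exp (ℓ / 2) := Real.one_le_exp (by positivity)
    have e3 : 4 * ρ + 1 ≤ 5 * ρ * Real.exp (ℓ / 2) := by
      have : 5 * ρ * 1 ≤ 5 * ρ * Real.exp (ℓ / 2) :=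
        mul_le_mul_of_nonneg_left e2 (by positivity)
      linarith
    rw [hG]
    linarith
  have hpow : (4 * ρ + 1) ^ k ≤ Real.exp (2 * Lr * lam) := by
    have e1 : (4 * ρ + 1) ^ k ≤ (8 * ρ) ^ k :=
      pow_le_pow_left₀ (by positivity) (by linarith) _
    have e2 : (8 * ρ) ^ k = Real.exp (k * lam) := by
      rw [hlam, Real.exp_nat_mul, Real.exp_log (by positivity)]
    rw [e2] at e1
    refine e1.trans (Real.exp_le_exp.mpr ?_)
    exact mul_le_mul_of_nonneg_right hk hlam0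
  have hfin : g ≤ Real.exp (lam + ℓ / 2 + 2 * Lr * lam) := by
    calc g ≤ G * (4 * ρ + 1) ^ k := hgu
      _ ≤ (8 * ρ * Real.exp (ℓ / 2)) * Real.exp (2 * Lr * lam) :=
          mul_le_mul hG8 hpow (by positivity) (by positivity)
      _ = Real.exp (lam + ℓ / 2 + 2 * Lr * lam) := by
          rw [Real.exp_add, Real.exp_add, hlam, Real.exp_log (by positivity)]
  have e5 : lam + ℓ / 2 + 2 * Lr * lam ≤ ℓ - 1 := by
    have : lam ≤ Lr * lam := le_mul_of_one_le_left hlam0 hLr1
    linarith only [this, hmain]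
  have e6 : Real.exp (ℓ - 1) ≤ h / 2 := by
    rw [Real.exp_sub, hhexp]
    apply div_le_div_of_nonneg_left hh0.le (by norm_num)
    linarith [Real.exp_one_gt_d9]
  exact hfin.trans ((Real.exp_le_exp.mpr e5).trans e6)

/-- The effective bound, with explicit constant. -/
theorem bound (a b : ℕ) (ha : 0 < a) (hb : 0 < b) (hab : Nat.Coprime a b) :
    Real.log ((a + b : ℕ)) ≤ Real.exp (5000 * (1 + Real.log
      ((∏ p ∈ (a * b * (a + b)).primeFactors, p : ℕ) : ℝ)) ^ 2) := by
  classical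
  by_contra hcon
  push Not at hcon
  set c : ℕ := a + b with hc
  set h : ℝ := Real.log (c : ℝ) with hh
  set T : Finset ℕ := (a * b * c).primeFactors with hT
  set n : ℕ := ∏ p ∈ T, p with hn
  set Lr : ℝ := 1 + Real.log (n : ℝ) with hLr
  have hc0 : 0 < c := by omega
  have hab0 : a * b ≠ 0 := (Nat.mul_pos ha hb).ne'
  have habc0 : a * b * c ≠ 0 := (Nat.mul_pos (Nat.mul_pos ha hb) hc0).ne'
  have hTp : ∀ p ∈ T, p.Prime := fun p hp => Nat.prime_of_mem_primeFactors hp
  have hlogT : ∀ p ∈ T, 0 ≤ Real.log p := fun p hp =>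
    Real.log_nonneg (by exact_mod_cast (hTp p hp).one_le)
  have hlogn : Real.log (n : ℝ) = ∑ p ∈ T, Real.log p := by
    rw [hn]
    push_cast
    exact Real.log_prod (fun p hp => by exact_mod_cast (hTp p hp).ne_zero)
  have hlogn0 : 0 ≤ Real.log (n : ℝ) := by rw [hlogn]; exact Finset.sum_nonneg hlogT
  have hLr1 : 1 ≤ Lr := by rw [hLr]; linarith
  have hLr0 : 0 < Lr := by linarith
  have hcardT : (T.card : ℝ) ≤ 2 * Lr := by
    have h1 : (T.card : ℝ) * 0.69 ≤ Real.log (n : ℝ) := by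
      rw [hlogn]
      have h2 : ∑ _p ∈ T, (0.69 : ℝ) ≤ ∑ p ∈ T, Real.log p := by
        refine Finset.sum_le_sum (fun p hp => ?_)
        have h1 : Real.log 2 ≤ Real.log p :=
          Real.log_le_log (by norm_num) (by exact_mod_cast (hTp p hp).two_le)
        linarith [Real.log_two_gt_d9]
      rw [Finset.sum_const, nsmul_eq_mul] at h2
      exact h2
    have : Real.log (n : ℝ) = Lr - 1 := by rw [hLr]; ring
    have h0 : (0 : ℝ) ≤ T.card := Nat.cast_nonneg _
    linarith
  -- the logarithm of `h`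
  have hh0 : 0 < h := lt_trans (Real.exp_pos _) hcon
  set ℓ : ℝ := Real.log h with hℓ
  have hhexp : Real.exp ℓ = h := Real.exp_log hh0
  have hℓb : 5000 * Lr ^ 2 < ℓ := by
    rw [hℓ, Real.lt_log_iff_exp_lt hh0]
    exact hcon
  have hLr2 : 1 ≤ Lr ^ 2 := one_le_pow₀ hLr1
  have hLrsq : Lr ≤ Lr ^ 2 := by nlinarith only [hLr1]
  have hℓ5000 : 5000 ≤ ℓ := by linarith
  have hℓ0 : 0 < ℓ := by linarith
  have hhq : ℓ ^ 2 / 2 ≤ h := by
    have := Real.quadratic_le_exp_of_nonneg hℓ0.le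
    rw [hhexp] at this
    linarith only [this, hℓ0]
  -- the prime `t`
  have hcne1 : c ≠ 1 := by omega
  obtain ⟨t, htc, htm⟩ := Finset.exists_max_image c.primeFactors
    (fun p => (c.factorization p : ℝ) * Real.log p) (Nat.nonempty_primeFactors.mpr (by omega))
  have htp : t.Prime := Nat.prime_of_mem_primeFactors htc
  have htdvd : t ∣ c := Nat.dvd_of_mem_primeFactors htc
  set x : ℕ := c.factorization t with hx
  have hcT : c.primeFactors ⊆ T := Nat.primeFactors_mono (dvd_mul_left c (a * b)) habc0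
  have hST : (a * b).primeFactors ⊆ T := Nat.primeFactors_mono (dvd_mul_right (a * b) c) habc0
  have htT : t ∈ T := hcT htc
  have hlogt : Real.log t ≤ Lr := by
    have h1 : Real.log t ≤ ∑ p ∈ T, Real.log p :=
      Finset.single_le_sum (f := fun p : ℕ => Real.log (p : ℝ)) hlogT htT
    rw [hLr, hlogn]; linarith
  have hlogt0 : 0 < Real.log t := by
    apply Real.log_pos
    exact_mod_cast htp.one_lt
  have hxlog : h / (2 * Lr) ≤ x * Real.log t := by
    have h1 : h ≤ (c.primeFactors.card : ℝ) * (x * Real.log t) := by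
      have h2 : h = ∑ p ∈ c.primeFactors, (c.factorization p : ℝ) * Real.log p := by
        rw [hh, ← log_prod c.primeFactors (fun p hp => Nat.prime_of_mem_primeFactors hp),
          self_prod c.primeFactors c hc0.ne' (Finset.Subset.refl _)]
      rw [h2]
      have h3 := Finset.sum_le_card_nsmul c.primeFactors
        (fun p => (c.factorization p : ℝ) * Real.log p) (x * Real.log t) (fun p hp => htm p hp)
      rw [nsmul_eq_mul] at h3
      exact h3
    have h2 : (c.primeFactors.card : ℝ) ≤ 2 * Lr := by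
      refine le_trans ?_ hcardT
      exact_mod_cast Finset.card_le_card hcT
    rw [div_le_iff₀ (by positivity)]
    have h3 : (0 : ℝ) ≤ x * Real.log t := mul_nonneg (Nat.cast_nonneg _) hlogt0.le
    calc h ≤ (c.primeFactors.card : ℝ) * (x * Real.log t) := h1
      _ ≤ 2 * Lr * (x * Real.log t) := mul_le_mul_of_nonneg_right h2 h3
      _ = x * Real.log t * (2 * Lr) := by ring
  have hxl : h / (2 * Lr ^ 2) ≤ x := by
    have h1 : (x : ℝ) * Real.log t ≤ x * Lr := mul_le_mul_of_nonneg_left hlogt (Nat.cast_nonneg _)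
    have h2 : h / (2 * Lr) ≤ x * Lr := hxlog.trans h1
    rw [div_le_iff₀ (by positivity)] at h2 ⊢
    calc h ≤ (x : ℝ) * Lr * (2 * Lr) := h2
      _ = x * (2 * Lr ^ 2) := by ring
  have htx : t ^ x ∣ a + b := Nat.ordProj_dvd c t
  have hta : ¬ t ∣ a := by
    intro hdv
    have h1 : t ∣ b := (Nat.dvd_add_right hdv).mp htdvd
    exact htp.one_lt.ne' (Nat.eq_one_of_dvd_coprimes hab hdv h1)
  have htb : ¬ t ∣ b := by
    intro hdv
    have h1 : t ∣ a := (Nat.dvd_add_left hdv).mp htdvd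
    exact htp.one_lt.ne' (Nat.eq_one_of_dvd_coprimes hab h1 hdv)
  -- P
  set P : ℝ := ((2 * (t - 1) : ℕ) : ℝ) with hP
  have hP2 : 2 ≤ P := by
    have h1 : 2 ≤ 2 * (t - 1) := by have := htp.two_le; omega
    rw [hP]; exact_mod_cast h1
  have hP0 : 0 < P := by linarith
  have hlogP : Real.log P ≤ 2 * Lr := by
    have h1 : P ≤ 2 * t := by
      have h2 : 2 * (t - 1) ≤ 2 * t := by omega
      rw [hP]; exact_mod_cast h2
    have htR : (0 : ℝ) < t := by exact_mod_cast htp.pos
    calc Real.log P ≤ Real.log (2 * t) := Real.log_le_log hP0 h1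
      _ = Real.log 2 + Real.log t := Real.log_mul (by norm_num) htR.ne'
      _ ≤ 2 * Lr := by linarith [Real.log_two_lt_d9]
  -- parameters
  set ρ : ℝ := 200000000 * (P ^ 2 * Lr ^ 3 * ℓ ^ 2) with hρ
  have hmon1 : 1 ≤ P ^ 2 * Lr ^ 3 * ℓ ^ 2 := by
    have e1 : (1 : ℝ) ≤ P ^ 2 := one_le_pow₀ (by linarith only [hP2])
    have e2 : (1 : ℝ) ≤ Lr ^ 3 := one_le_pow₀ hLr1
    have e3 : (1 : ℝ) ≤ ℓ ^ 2 := one_le_pow₀ (by linarith only [hℓ5000])
    have e4 : (1 : ℝ) ≤ P ^ 2 * Lr ^ 3 := one_le_mul_of_one_le_of_one_le e1 e2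
    exact one_le_mul_of_one_le_of_one_le e4 e3
  have hρbig : 200000000 ≤ ρ := by rw [hρ]; linarith
  have hρ0 : 0 < ρ := by linarith
  have hρ1 : 9600 * (P * Lr * ℓ) ≤ ρ := by
    rw [hρ]
    have e1 : P * Lr * ℓ ≤ P ^ 2 * Lr ^ 3 * ℓ ^ 2 := by
      have f1 : P ≤ P ^ 2 := by nlinarith only [hP2]
      have f2 : Lr ≤ Lr ^ 3 := by
        calc Lr = Lr ^ 1 := (pow_one _).symm
          _ ≤ Lr ^ 3 := pow_le_pow_right₀ hLr1 (by norm_num)
      have f3 : ℓ ≤ ℓ ^ 2 := by nlinarith only [hℓ5000]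
      have f4 : P * Lr ≤ P ^ 2 * Lr ^ 3 := mul_le_mul f1 f2 hLr0.le (by positivity)
      exact mul_le_mul f4 f3 hℓ0.le (by positivity)
    have e2 : 0 < P * Lr * ℓ := by positivity
    linarith only [e1, e2]
  have hρ2 : 16 * (P * Lr) ≤ ρ := by
    have : P * Lr ≤ P * Lr * ℓ := by
      have : 0 < P * Lr := by positivity
      exact le_mul_of_one_le_right this.le (by linarith only [hℓ5000])
    have h0 : 0 < P * Lr * ℓ := by positivity
    linarith
  set G : ℝ := 4 * ρ + 1 + 3 * Real.sqrt (ρ * h) with hG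
  have hsq0 : 0 ≤ Real.sqrt (ρ * h) := Real.sqrt_nonneg _
  have hsqsq : Real.sqrt (ρ * h) ^ 2 = ρ * h := Real.sq_sqrt (by positivity)
  -- logs of a and b
  have haR : (0 : ℝ) < a := by exact_mod_cast ha
  have hbR : (0 : ℝ) < b := by exact_mod_cast hb
  have hlogah : Real.log a ≤ h := by
    rw [hh, hc]; push_cast
    exact Real.log_le_log haR (by linarith)
  have hlogbh : Real.log b ≤ h := by
    rw [hh, hc]; push_cast
    exact Real.log_le_log hbR (by linarith)
  have hfac : ∀ m : ℕ, 0 < m → m.primeFactors ⊆ T → Real.log m ≤ h → ∀ p ∈ T,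
      (m.factorization p : ℝ) ≤ 2 * h := by
    intro m hm hmT hmh p hp
    have h1 : (m.factorization p : ℝ) * Real.log p ≤ Real.log m := by
      have h2 : Real.log m = ∑ p ∈ T, (m.factorization p : ℝ) * Real.log p := by
        rw [← log_prod T hTp, self_prod T m hm.ne' hmT]
      rw [h2]
      exact Finset.single_le_sum (f := fun p => (m.factorization p : ℝ) * Real.log p)
          (fun r hr => mul_nonneg (Nat.cast_nonneg _) (hlogT r hr)) hp
    have h2 : (0.69 : ℝ) ≤ Real.log p := by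
      have h1 : Real.log 2 ≤ Real.log p :=
        Real.log_le_log (by norm_num) (by exact_mod_cast (hTp p hp).two_le)
      linarith [Real.log_two_gt_d9]
    have h3 : (0 : ℝ) ≤ m.factorization p := Nat.cast_nonneg _
    have h4 := mul_le_mul_of_nonneg_left h2 h3
    linarith only [h4, h1, hmh, h3]
  have haT : a.primeFactors ⊆ T :=
    (Nat.primeFactors_mono (dvd_mul_right a b) hab0).trans hST
  have hbT : b.primeFactors ⊆ T :=
    (Nat.primeFactors_mono (dvd_mul_left b a) hab0).trans hST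
  obtain ⟨g, q, s, hes, hs, hgl, hgu⟩ := small_remainders (a * b).primeFactors
    (fun p => (a.factorization p : ℤ) - b.factorization p) ρ (2 * h) G (by linarith)
    (by
      intro p hp
      have h1 := hfac a ha haT hlogah p (hST hp)
      have h2 := hfac b hb hbT hlogbh p (hST hp)
      have h3 : (0 : ℝ) ≤ a.factorization p := Nat.cast_nonneg _
      have h4 : (0 : ℝ) ≤ b.factorization p := Nat.cast_nonneg _
      push_cast
      rw [abs_le]
      constructor <;> linarith)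
    (by rw [hG]; linarith)
    (by
      have e1 : (G - 1) ^ 2 ≥ 9 * (ρ * h) := by
        have : G - 1 = 4 * ρ + 3 * Real.sqrt (ρ * h) := by rw [hG]; ring
        rw [this]
        nlinarith only [mul_nonneg hρ0.le hsq0, hsqsq, sq_nonneg ρ]
      nlinarith only [e1, mul_pos hρ0 hh0])
  have hg4 : 4 * ρ ≤ g := by rw [hG] at hgl; linarith
  have hgR : (0 : ℝ) < g := by linarith
  have hg0 : 0 < g := by exact_mod_cast hgR
  -- upper bound of g
  have hgh : (g : ℝ) ≤ h / 2 := by
    refine g_bound Lr ℓ h P ρ G g (a * b).primeFactors.card hLr1 hℓb hhexp hP0 hlogP hρ hmon1 hG ?_ hgu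
    refine le_trans ?_ hcardT
    exact_mod_cast Finset.card_le_card hST
  -- sum of logs
  have hsumS : ∑ p ∈ (a * b).primeFactors, Real.log p ≤ Lr := by
    calc ∑ p ∈ (a * b).primeFactors, Real.log (p : ℝ) ≤ ∑ p ∈ T, Real.log (p : ℝ) :=
          Finset.sum_le_sum_of_subset_of_nonneg hST (fun p hp _ => hlogT p hp)
      _ = Real.log n := hlogn.symm
      _ ≤ Lr := by rw [hLr]; linarith
  have hLℓ : Lr ≤ ℓ := by linarith only [hℓb, hLrsq, hLr2]
  -- application
  have key := step a b t x g ha hb hab htp hta htb htx q s ρ Lr (by linarith) hg0 hes hs hsumS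
    h hh
    (by
      -- log 2 + g/ρ L < h
      have e1 : (g : ℝ) / ρ * Lr ≤ h / 4 := by
        rw [div_mul_eq_mul_div, div_le_iff₀ hρ0]
        have : 2 * Lr ≤ ρ := by
          have : Lr ≤ P * Lr := le_mul_of_one_le_left hLr0.le (by linarith only [hP2])
          linarith only [this, hρ2, hLr0]
        calc (g : ℝ) * Lr ≤ (h / 2) * (ρ / 2) :=
              mul_le_mul hgh (by linarith only [this]) hLr0.le (by positivity)
          _ = h / 4 * ρ := by ring
      have e2 : 2 ≤ h := by nlinarith only [hhq, hℓ5000]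
      linarith [Real.log_two_lt_d9])
    (by
      -- 2 P h / g + log (2 h) < x log t
      have e1 : 2 * P * h / g ≤ h / (8 * Lr) := by
        rw [div_le_div_iff₀ hgR (by positivity)]
        have : 16 * (P * Lr) ≤ g := by linarith only [hρ2, hg4, hρ0]
        calc 2 * P * h * (8 * Lr) = (16 * (P * Lr)) * h := by ring
          _ ≤ g * h := mul_le_mul_of_nonneg_right this hh0.le
          _ = h * g := by ring
      have e2 : Real.log (2 * h) ≤ 2 * ℓ := by
        rw [Real.log_mul (by norm_num) hh0.ne', ← hℓ]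
        linarith [Real.log_two_lt_d9]
      have e3 : 2 * ℓ < h / (4 * Lr) := by
        rw [lt_div_iff₀ (by positivity)]
        have f1 : 16 * Lr < ℓ := by linarith only [hℓb, hLrsq, hLr2]
        have f2 := mul_lt_mul_of_pos_left f1 hℓ0
        nlinarith only [hhq, f2]
      have e4 : h / (8 * Lr) + h / (4 * Lr) ≤ h / (2 * Lr) := by
        have : h / (2 * Lr) - (h / (8 * Lr) + h / (4 * Lr)) = h / (8 * Lr) := by
          field_simp; ring
        have h0 : 0 ≤ h / (8 * Lr) := by positivity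
        linarith
      have e5 : 2 * ((2 * (t - 1) : ℕ) : ℝ) * h / g = 2 * P * h / g := rfl
      rw [e5]
      linarith)
    (P * (g / ρ * Lr)) (4 * P * h / g) (4 * ℓ)
    (by
      have e1 : 4 ≤ (g : ℝ) / ρ := by rw [le_div_iff₀ hρ0]; exact hg4
      have e2 : 4 * 1 ≤ (g : ℝ) / ρ * Lr := mul_le_mul e1 hLr1 (by norm_num) (by positivity)
      nlinarith only [e2, hP2])
    (by
      rw [le_div_iff₀ hgR]
      nlinarith only [hgh, hP2, hh0, hgR])
    (by linarith) le_rfl le_rfl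
    (by
      have e1 : 1200 * (P * (g / ρ * Lr)) * (4 * ℓ) = (4800 * (P * Lr * ℓ)) * (g / ρ) := by ring
      rw [e1]
      have e2 : (4800 * (P * Lr * ℓ)) * (g / ρ) ≤ g / 2 := by
        rw [← mul_div_assoc, div_le_iff₀ hρ0]
        have f1 := mul_le_mul_of_nonneg_left hρ1 hgR.le
        linarith only [f1]
      linarith)
    (by
      have e1 : 4800 * (g : ℝ) * (4 * P * h / g) * (4 * ℓ) = 76800 * (P * h * ℓ) := by
        field_simp; ring
      rw [e1, Real.log_mul (by norm_num) (by positivity), Real.log_mul (by positivity) hℓ0.ne',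
        Real.log_mul hP0.ne' hh0.ne', ← hℓ]
      have e2 : Real.log 76800 ≤ 12 := log_le_of_le_exp _ 12 (by norm_num) (by norm_num)
      have e3 : Real.log ℓ ≤ ℓ := by
        have := Real.log_le_sub_one_of_pos hℓ0
        linarith
      have e4 : 2 * Lr ≤ ℓ / 2 := by linarith only [hℓb, hLrsq, hLr2]
      linarith)
  have hfin : 1400000 * (P * (g / ρ * Lr)) * (4 * P * h / g) * (4 * ℓ) ^ 2
      = 0.448 * (h / Lr ^ 2) := by
    rw [hρ]
    field_simp
    ring
  rw [hfin] at key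
  have h3 : h / (2 * Lr ^ 2) = 0.5 * (h / Lr ^ 2) := by field_simp; ring
  rw [h3] at hxl
  have h4 : 0 < h / Lr ^ 2 := by positivity
  linarith

end Pool.Agent.H21.EHB
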