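import Pool.Agent.H21.EHB.Det

set_option autoImplicit false

open Finset BigOperators

namespace Pool.Agent.H21.EHB

/-- The integral entry of the interpolation determinant: row `(k, l)` (with `l ≤ q`), column
`(r, s)`. -/
def ent (a₁ a₂ b₁ b₂ g q : ℕ) (k l r s : ℕ) : ℤ :=
  ((s + g * r : ℕ) : ℤ) ^ k * ((a₁ ^ r * b₁ ^ s : ℕ) : ℤ) ^ l *
    ((a₂ ^ r * b₂ ^ s : ℕ) : ℤ) ^ (q - l)

theorem ring_minor_dvd {R : Type*} [CommRing R] (t : ℕ) (a₁ a₂ b₁ b₂ g q : ℕ)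
    (ua : IsUnit ((a₂ : ℕ) : R)) (ub : IsUnit ((b₂ : ℕ) : R))
    (hb : (t : R) ∣ (b₁ : R) - b₂) (x : ℕ)
    (hx : (t : R) ^ x ∣ (b₁ : R) ^ g * a₂ - a₁ * (b₂ : R) ^ g)
    {ι : Type*} [Fintype ι] [DecidableEq ι] (hxN : Fintype.card ι ≤ x)
    (kk ll r s : ι → ℕ) (hll : ∀ i, ll i ≤ q) (V : ℕ)
    (hV : V + ∑ i, kk i ≤ ∑ m ∈ range (Fintype.card ι), m) :
    (t : R) ^ V ∣ ((Matrix.det (Matrix.of
      (fun i j => ent a₁ a₂ b₁ b₂ g q (kk i) (ll i) (r j) (s j))) : ℤ) : R) := by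
  classical
  obtain ⟨ua', hua'⟩ := ua
  obtain ⟨ub', hub'⟩ := ub
  set α : R := (a₁ : R) * ((ua'⁻¹ : Rˣ) : R) with hα
  set β : R := (b₁ : R) * ((ub'⁻¹ : Rˣ) : R) with hβ
  have ha1 : (a₁ : R) = α * (a₂ : R) := by
    rw [hα, ← hua', mul_assoc, Units.inv_mul, mul_one]
  have hb1 : (b₁ : R) = β * (b₂ : R) := by
    rw [hβ, ← hub', mul_assoc, Units.inv_mul, mul_one]
  have hβ1 : (t : R) ∣ β - 1 := by
    have h2 : β - 1 = ((b₁ : R) - b₂) * ((ub'⁻¹ : Rˣ) : R) := by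
      rw [hβ, sub_mul, ← hub', Units.mul_inv]
    rw [h2]
    exact hb.mul_right _
  obtain ⟨y, hy⟩ : ∃ y : R, α = β ^ g + (t : R) ^ x * y := by
    obtain ⟨w, h1⟩ := hx
    -- b₁^g a₂ - a₁ b₂^g = t^x w
    have h2 : (β ^ g - α) * ((a₂ : R) * (b₂ : R) ^ g) = (t : R) ^ x * w := by
      rw [← h1, ha1, hb1]; ring
    have h3 : (β ^ g - α) = (t : R) ^ x * w * (((ua'⁻¹ : Rˣ) : R) * ((ub'⁻¹ : Rˣ) : R) ^ g) := by
      rw [← h2, ← hua', ← hub']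
      have e1 : (ua' : R) * ((ua'⁻¹ : Rˣ) : R) = 1 := Units.mul_inv _
      have e2 : (ub' : R) ^ g * ((ub'⁻¹ : Rˣ) : R) ^ g = 1 := by
        rw [← mul_pow, Units.mul_inv, one_pow]
      calc β ^ g - α = (β ^ g - α) * (((ua' : R) * ((ua'⁻¹ : Rˣ) : R)) *
            ((ub' : R) ^ g * ((ub'⁻¹ : Rˣ) : R) ^ g)) := by rw [e1, e2]; ring
        _ = _ := by ring
    refine ⟨-(w * (((ua'⁻¹ : Rˣ) : R) * ((ub'⁻¹ : Rˣ) : R) ^ g)), ?_⟩
    linear_combination -h3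
  -- the entries
  have hpow : ∀ l r' s' : ℕ, ∃ G : R, (α ^ r' * β ^ s') ^ l
      = (β ^ l) ^ (s' + g * r') + (t : R) ^ x * G := by
    intro l r' s'
    have h1 : (t : R) ^ x ∣ α - β ^ g := ⟨y, by rw [hy]; ring⟩
    have h2 : (t : R) ^ x ∣ α ^ r' - (β ^ g) ^ r' := h1.trans (sub_dvd_pow_sub_pow _ _ _)
    have h3 : (t : R) ^ x ∣ α ^ r' * β ^ s' - (β ^ g) ^ r' * β ^ s' := by
      rw [← sub_mul]; exact h2.mul_right _
    have h4 : (t : R) ^ x ∣ (α ^ r' * β ^ s') ^ l - ((β ^ g) ^ r' * β ^ s') ^ l :=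
      h3.trans (sub_dvd_pow_sub_pow _ _ _)
    obtain ⟨G, hG⟩ := h4
    refine ⟨G, ?_⟩
    have h5 : ((β ^ g) ^ r' * β ^ s') ^ l = (β ^ l) ^ (s' + g * r') := by ring
    rw [← h5]
    linear_combination hG
  choose G hG using fun (i j : ι) => hpow (ll i) (r j) (s j)
  -- the determinant in R
  have hdet : (t : R) ^ V ∣ Matrix.det (Matrix.of (fun i j : ι => ((s j + g * r j : ℕ) : R) ^ (kk i) *
      (α ^ (r j) * β ^ (s j)) ^ (ll i))) := by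
    have h1 := minor_dvd (t : R) (fun i : ι => β ^ (ll i)) (fun i => by
        have := hβ1.trans (by simpa using sub_dvd_pow_sub_pow β 1 (ll i) : β - 1 ∣ β ^ (ll i) - 1)
        exact this) kk (fun j => s j + g * r j) x hxN
        (fun i j => ((s j + g * r j : ℕ) : R) ^ (kk i) * G i j) V hV
    have h2 : (fun i j : ι => ((s j + g * r j : ℕ) : R) ^ (kk i) * (β ^ (ll i)) ^ (s j + g * r j)
        + (t : R) ^ x * (((s j + g * r j : ℕ) : R) ^ (kk i) * G i j))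
        = (fun i j : ι => ((s j + g * r j : ℕ) : R) ^ (kk i) * (α ^ (r j) * β ^ (s j)) ^ (ll i)) := by
      funext i j
      rw [hG i j]; ring
    rw [h2] at h1
    exact h1
  -- comparison
  have h1 : ((Matrix.det (Matrix.of (fun i j => ent a₁ a₂ b₁ b₂ g q (kk i) (ll i) (r j) (s j))) : ℤ) : R)
      = Matrix.det (Matrix.of (fun i j => ((ent a₁ a₂ b₁ b₂ g q (kk i) (ll i) (r j) (s j) : ℤ) : R))) := by
    have := RingHom.map_det (Int.castRingHom R)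
      (Matrix.of (fun i j => ent a₁ a₂ b₁ b₂ g q (kk i) (ll i) (r j) (s j)))
    exact this
  rw [h1]
  have h3 : Matrix.det (Matrix.of (fun i j => ((ent a₁ a₂ b₁ b₂ g q (kk i) (ll i) (r j) (s j) : ℤ) : R)))
      = (∏ j, ((a₂ : R) ^ (r j) * (b₂ : R) ^ (s j)) ^ q) *
        Matrix.det (Matrix.of (fun i j : ι => ((s j + g * r j : ℕ) : R) ^ (kk i) *
      (α ^ (r j) * β ^ (s j)) ^ (ll i))) := by
    rw [← Matrix.det_mul_row]
    congr 1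
    ext i j
    simp only [Matrix.of_apply, ent]
    push_cast
    rw [ha1, hb1]
    have h2 : ((a₂ : R) ^ (r j) * (b₂ : R) ^ (s j)) ^ q
        = ((a₂ : R) ^ (r j) * (b₂ : R) ^ (s j)) ^ (ll i) *
          ((a₂ : R) ^ (r j) * (b₂ : R) ^ (s j)) ^ (q - ll i) := by
      rw [← pow_add, Nat.add_sub_cancel' (hll i)]
    rw [h2]
    ring
  rw [h3]
  exact hdet.mul_left _

/-- Divisibility of the integral interpolation determinant. -/
theorem int_minor_dvd (t : ℕ) (a₁ a₂ b₁ b₂ g q : ℕ)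
    (ha₂ : Nat.Coprime a₂ t) (hb₂ : Nat.Coprime b₂ t)
    (hb : (t : ℤ) ∣ (b₁ : ℤ) - b₂) (x : ℕ)
    (hx : (t : ℤ) ^ x ∣ (b₁ : ℤ) ^ g * a₂ - a₁ * (b₂ : ℤ) ^ g)
    {ι : Type*} [Fintype ι] [DecidableEq ι] (hxN : Fintype.card ι ≤ x)
    (kk ll r s : ι → ℕ) (hll : ∀ i, ll i ≤ q) (V : ℕ)
    (hV : V + ∑ i, kk i ≤ ∑ m ∈ range (Fintype.card ι), m) :
    (t : ℤ) ^ V ∣ Matrix.det (Matrix.of
      (fun i j => ent a₁ a₂ b₁ b₂ g q (kk i) (ll i) (r j) (s j))) := by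
  have key := ring_minor_dvd (R := ZMod (t ^ V)) t a₁ a₂ b₁ b₂ g q
    ((ZMod.isUnit_iff_coprime a₂ (t ^ V)).mpr (ha₂.pow_right V))
    ((ZMod.isUnit_iff_coprime b₂ (t ^ V)).mpr (hb₂.pow_right V))
    (by
      have := map_dvd (Int.castRingHom (ZMod (t ^ V))) hb
      simpa using this) x
    (by
      have := map_dvd (Int.castRingHom (ZMod (t ^ V))) hx
      simpa using this) hxN kk ll r s hll V hV
  have h1 : ((t : ℕ) : ZMod (t ^ V)) ^ V = 0 := by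
    have := ZMod.natCast_self (t ^ V)
    push_cast at this
    exact this
  rw [h1, zero_dvd_iff] at key
  have h5 := (ZMod.intCast_zmod_eq_zero_iff_dvd _ (t ^ V)).mp key
  push_cast at h5
  exact h5

end Pool.Agent.H21.EHB
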