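import Mathlib

/-!
# A zero lemma for `G_a × G_m` on a grid (Nesterenko, Laurent)
-/

set_option autoImplicit false

open Finset BigOperators Polynomial

namespace Pool.Agent.H21.EHB

/-- Sign variations are fewer than nonzero terms. -/
theorem signVar_lt_support : ∀ (n : ℕ) (F : ℝ[X]), F ≠ 0 → F.support.card = n →
    F.signVariations + 1 ≤ n := by
  intro n
  induction n with
  | zero =>
    intro F hF h
    exact absurd (Polynomial.support_eq_empty.mp (Finset.card_eq_zero.mp h)) hF
  | succ n ih =>
    intro F hF h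
    by_cases he : F.eraseLead = 0
    · have h1 := signVariations_le_eraseLead_succ F
      have h2 : F = monomial F.natDegree F.leadingCoeff := by
        have := F.eraseLead_add_monomial_natDegree_leadingCoeff
        rw [he, zero_add] at this
        exact this.symm
      have h3 : F.signVariations = 0 := by
        rw [h2]; exact signVariations_monomial _ _
      omega
    · have h1 := signVariations_le_eraseLead_succ F
      have h2 := ih F.eraseLead he (by rw [card_support_eraseLead, h]; rfl)
      omega

/-- Generalised Vandermonde determinants at distinct positive points do not vanish. -/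
theorem gen_vandermonde {I : Type*} [Fintype I] [DecidableEq I] (e : I → ℕ)
    (he : Function.Injective e) (y : I → ℝ) (hy0 : ∀ i, 0 < y i) (hy : Function.Injective y) :
    Matrix.det (Matrix.of (fun i l : I => y i ^ (e l))) ≠ 0 := by
  classical
  intro h0
  obtain ⟨c, hc0, hc⟩ := Matrix.exists_mulVec_eq_zero_iff.mpr h0
  set F : ℝ[X] := ∑ l : I, C (c l) * X ^ (e l) with hF
  have hcoeff : ∀ l, F.coeff (e l) = c l := by
    intro l
    rw [hF, finsetSum_coeff]
    simp only [coeff_C_mul, coeff_X_pow]
    rw [Finset.sum_eq_single l]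
    · simp
    · intro b _ hb
      rw [if_neg (fun h => hb (he h).symm), mul_zero]
    · intro h; exact absurd (mem_univ l) h
  have hFne : F ≠ 0 := by
    intro h
    apply hc0
    funext l
    rw [← hcoeff l, h]; rfl
  have hsupp : F.support ⊆ (univ : Finset I).image e := by
    intro n hn
    rw [mem_support_iff] at hn
    by_contra hcon
    apply hn
    rw [hF, finsetSum_coeff]
    refine Finset.sum_eq_zero (fun l _ => ?_)
    rw [coeff_C_mul, coeff_X_pow, if_neg (fun h => hcon (by rw [h]; exact mem_image_of_mem e (mem_univ l))),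
      mul_zero]
  have hcard : F.support.card ≤ Fintype.card I := by
    calc F.support.card ≤ ((univ : Finset I).image e).card := Finset.card_le_card hsupp
      _ ≤ (univ : Finset I).card := Finset.card_image_le
      _ = Fintype.card I := rfl
  have hroot : ∀ i, y i ∈ F.roots := by
    intro i
    rw [mem_roots hFne, IsRoot.def, hF, eval_finsetSum]
    have := congrFun hc i
    simp only [Matrix.mulVec, dotProduct, Matrix.of_apply, Pi.zero_apply] at this
    rw [← this]
    refine Finset.sum_congr rfl (fun l _ => ?_)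
    rw [eval_mul, eval_C, eval_pow, eval_X, mul_comm]
  have h1 : Fintype.card I ≤ F.roots.countP (fun x => 0 < x) := by
    rw [Multiset.countP_eq_card_filter]
    calc Fintype.card I = ((univ : Finset I).image y).card := by
          rw [Finset.card_image_of_injective _ hy]; rfl
      _ ≤ (F.roots.filter (fun x => 0 < x)).toFinset.card := by
          apply Finset.card_le_card
          intro x hx
          obtain ⟨i, _, rfl⟩ := Finset.mem_image.mp hx
          rw [Multiset.mem_toFinset, Multiset.mem_filter]
          exact ⟨hroot i, hy0 i⟩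
      _ ≤ (F.roots.filter (fun x => 0 < x)).card := Multiset.toFinset_card_le _
  have h2 := F.roots_countP_pos_le_signVariations
  have h3 := signVar_lt_support _ F hFne rfl
  omega

/-- **Zero lemma**. -/
theorem zero_lemma (a b : ℝ) (ha : 0 < a) (hb : 0 < b) (g K Q R₁ S₁ R₂ S₂ : ℕ)
    (hdist : ∀ r s r' s', r < R₁ → s < S₁ → r' < R₁ → s' < S₁ →
      a ^ r * b ^ s = a ^ r' * b ^ s' → r = r' ∧ s = s')
    (hQ : Q ≤ R₁ * S₁) (hK : K * Q ≤ R₂ * S₂) (hS : S₂ ≤ g)
    (p : Fin K × Fin Q → ℝ) (hp : p ≠ 0) :
    ∃ r s, r < R₁ + R₂ ∧ s < S₁ + S₂ ∧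
      ∑ i : Fin K × Fin Q, p i * (((s + g * r : ℕ) : ℝ) ^ (i.1 : ℕ) *
        (a ^ r * b ^ s) ^ (i.2 : ℕ)) ≠ 0 := by
  classical
  by_contra hcon
  push Not at hcon
  set P : Fin Q → ℝ[X] := fun l => ∑ k : Fin K, C (p (k, l)) * X ^ (k : ℕ) with hP
  have hPdeg : ∀ l, P l ≠ 0 → (P l).natDegree + 1 ≤ K := by
    intro l hl
    have hKpos : 0 < K := by
      rcases Nat.eq_zero_or_pos K with h | h
      · subst h
        exfalso
        apply hl
        simp [hP]
      · exact h
    have : (P l).natDegree ≤ K - 1 := by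
      apply natDegree_sum_le_of_forall_le
      intro k _
      refine (natDegree_C_mul_X_pow_le _ _).trans ?_
      have := k.isLt
      omega
    omega
  obtain ⟨⟨k₀, l₀⟩, hkl⟩ : ∃ i, p i ≠ 0 := by
    by_contra h
    push Not at h
    exact hp (funext h)
  have hcoeff : ∀ l (k : Fin K), (P l).coeff k = p (k, l) := by
    intro l k
    simp only [hP]
    rw [finsetSum_coeff]
    simp only [coeff_C_mul, coeff_X_pow]
    rw [Finset.sum_eq_single k]
    · simp
    · intro b _ hb
      rw [if_neg (fun h => hb (Fin.ext h.symm)), mul_zero]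
    · intro h; exact absurd (mem_univ k) h
  have hl₀ : P l₀ ≠ 0 := by
    intro h
    apply hkl
    rw [← hcoeff l₀ k₀, h]; rfl
  have hK0 : 0 < K := lt_of_le_of_lt (Nat.zero_le _) k₀.isLt
  let I := {l : Fin Q // P l ≠ 0}
  have : Nonempty I := ⟨⟨l₀, hl₀⟩⟩
  have hIcard : Fintype.card I ≤ Q := by
    calc Fintype.card I ≤ Fintype.card (Fin Q) := Fintype.card_subtype_le _
      _ = Q := Fintype.card_fin Q
  have hemb : Nonempty (I ↪ Fin R₁ × Fin S₁) := by
    apply Function.Embedding.nonempty_of_card_le
    rw [Fintype.card_prod, Fintype.card_fin, Fintype.card_fin]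
    exact hIcard.trans hQ
  obtain ⟨e⟩ := hemb
  set y : I → ℝ := fun i => a ^ ((e i).1 : ℕ) * b ^ ((e i).2 : ℕ) with hy
  have hy0 : ∀ i, 0 < y i := fun i => mul_pos (pow_pos ha _) (pow_pos hb _)
  have hyinj : Function.Injective y := by
    intro i j hij
    have := hdist _ _ _ _ (e i).1.isLt (e i).2.isLt (e j).1.isLt (e j).2.isLt hij
    apply e.injective
    exact Prod.ext (Fin.ext this.1) (Fin.ext this.2)
  set z : I → ℝ := fun i => (((e i).2 + g * (e i).1 : ℕ) : ℝ) with hz
  set M : Matrix I I ℝ[X] := Matrix.of (fun i l => taylor (z i) (P l.1) * C (y i ^ (l.1 : ℕ)))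
    with hM
  set D : ℝ[X] := M.det with hD
  have hent : ∀ i l : I, M i l ≠ 0 := by
    intro i l
    simp only [hM, Matrix.of_apply]
    refine mul_ne_zero ?_ ?_
    · rw [Ne, taylor_eq_zero]; exact l.2
    · rw [Ne, C_eq_zero]; exact pow_ne_zero _ (hy0 i).ne'
  have hentdeg : ∀ i l : I, (M i l).natDegree = (P l.1).natDegree := by
    intro i l
    simp only [hM, Matrix.of_apply]
    rw [natDegree_mul_C (pow_ne_zero _ (hy0 i).ne'), natDegree_taylor]
  have hentlc : ∀ i l : I, (M i l).leadingCoeff = (P l.1).leadingCoeff * y i ^ (l.1 : ℕ) := by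
    intro i l
    simp only [hM, Matrix.of_apply]
    rw [leadingCoeff_mul, leadingCoeff_taylor, leadingCoeff_C]
  have hproddeg : ∀ σ : Equiv.Perm I, (∏ l, M (σ l) l).natDegree = ∑ l : I, (P l.1).natDegree := by
    intro σ
    rw [natDegree_prod _ _ (fun l _ => hent _ _)]
    exact Finset.sum_congr rfl (fun l _ => hentdeg _ _)
  have hprodlc : ∀ σ : Equiv.Perm I, (∏ l, M (σ l) l).coeff (∑ l : I, (P l.1).natDegree)
      = (∏ l : I, (P l.1).leadingCoeff) * ∏ l : I, y (σ l) ^ (l.1 : ℕ) := by
    intro σ
    rw [← hproddeg σ, coeff_natDegree, leadingCoeff_prod, ← Finset.prod_mul_distrib]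
    exact Finset.prod_congr rfl (fun l _ => hentlc _ _)
  -- D ≠ 0
  have hDne : D ≠ 0 := by
    intro h0
    have h1 : D.coeff (∑ l : I, (P l.1).natDegree)
        = (∏ l : I, (P l.1).leadingCoeff) *
          Matrix.det (Matrix.of (fun i l : I => y i ^ (l.1 : ℕ))) := by
      rw [hD, Matrix.det_apply, Matrix.det_apply, finsetSum_coeff, Finset.mul_sum]
      refine Finset.sum_congr rfl (fun σ _ => ?_)
      rw [coeff_smul, hprodlc σ]
      simp only [Matrix.of_apply]
      rw [mul_smul_comm]
    rw [h0, coeff_zero] at h1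
    have h2 := gen_vandermonde (fun l : I => (l.1 : ℕ))
      (fun i j hij => Subtype.ext (Fin.ext hij)) y hy0 hyinj
    have h3 : (∏ l : I, (P l.1).leadingCoeff) ≠ 0 :=
      Finset.prod_ne_zero_iff.mpr (fun l _ => leadingCoeff_ne_zero.mpr l.2)
    exact (mul_ne_zero h3 h2) h1.symm
  -- degree of D
  have hDdeg : D.natDegree + 1 ≤ K * Q := by
    have h1 : D.natDegree ≤ ∑ l : I, (P l.1).natDegree := by
      rw [hD, Matrix.det_apply]
      apply natDegree_sum_le_of_forall_le
      intro σ _
      refine (natDegree_smul_le _ _).trans ?_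
      exact (hproddeg σ).le
    have h2 : ∑ l : I, ((P l.1).natDegree + 1) ≤ ∑ _l : I, K :=
      Finset.sum_le_sum (fun l _ => hPdeg l.1 l.2)
    rw [Finset.sum_add_distrib, Finset.sum_const, Finset.sum_const, Finset.card_univ,
      smul_eq_mul, smul_eq_mul, mul_one] at h2
    have h3 : 0 < Fintype.card I := Fintype.card_pos
    have h4 : Fintype.card I * K ≤ Q * K := Nat.mul_le_mul_right K hIcard
    nlinarith
  -- zeros of D
  have hzero : ∀ r s, r < R₂ → s < S₂ → D.eval (((s + g * r : ℕ) : ℝ)) = 0 := by
    intro r s hr hs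
    have h1 : D.eval (((s + g * r : ℕ) : ℝ))
        = Matrix.det (Matrix.of (fun i l : I =>
            (P l.1).eval (((s + g * r : ℕ) : ℝ) + z i) * y i ^ (l.1 : ℕ))) := by
      have := RingHom.map_det (evalRingHom (((s + g * r : ℕ) : ℝ))) M
      rw [coe_evalRingHom] at this
      rw [hD, this]
      congr 1
      ext i l
      simp only [RingHom.mapMatrix_apply, Matrix.map_apply, hM, Matrix.of_apply,
        coe_evalRingHom, eval_mul, eval_C, taylor_eval]
    rw [h1]
    apply Matrix.exists_mulVec_eq_zero_iff.mp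
    refine ⟨fun l : I => (a ^ r * b ^ s) ^ (l.1 : ℕ), ?_, ?_⟩
    · intro h
      have := congrFun h ⟨l₀, hl₀⟩
      simp only [Pi.zero_apply] at this
      exact (pow_ne_zero _ (mul_pos (pow_pos ha r) (pow_pos hb s)).ne') this
    · funext i
      simp only [Matrix.mulVec, dotProduct, Matrix.of_apply, Pi.zero_apply]
      have h2 := hcon (r + (e i).1) (s + (e i).2) (by have := (e i).1.isLt; omega)
        (by have := (e i).2.isLt; omega)
      rw [Fintype.sum_prod_type_right] at h2
      have h3 : ∀ l : Fin Q, ∑ k : Fin K, p (k, l) *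
          (((s + (e i).2 + g * (r + (e i).1) : ℕ) : ℝ) ^ (k : ℕ) *
            (a ^ (r + ((e i).1 : ℕ)) * b ^ (s + ((e i).2 : ℕ))) ^ (l : ℕ))
          = (P l).eval (((s + g * r : ℕ) : ℝ) + z i) * y i ^ (l : ℕ) *
            (a ^ r * b ^ s) ^ (l : ℕ) := by
        intro l
        have h4 : (((s + (e i).2 + g * (r + (e i).1) : ℕ) : ℝ))
            = ((s + g * r : ℕ) : ℝ) + z i := by
          simp only [hz]; push_cast; ring
        rw [h4]
        have h5 : (a ^ (r + ((e i).1 : ℕ)) * b ^ (s + ((e i).2 : ℕ))) = y i * (a ^ r * b ^ s) := by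
          simp only [hy]; ring
        rw [h5]
        simp only [hP]
        rw [eval_finsetSum, Finset.sum_mul, Finset.sum_mul]
        refine Finset.sum_congr rfl (fun k _ => ?_)
        simp only [eval_mul, eval_C, eval_pow, eval_X]
        ring
      rw [Finset.sum_congr rfl (fun l _ => h3 l)] at h2
      rw [← h2]
      symm
      -- sum over all l = sum over I
      have h6 : ∑ l : Fin Q, (P l).eval (((s + g * r : ℕ) : ℝ) + z i) * y i ^ (l : ℕ) *
            (a ^ r * b ^ s) ^ (l : ℕ)
          = ∑ l ∈ univ.filter (fun l : Fin Q => P l ≠ 0),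
            (P l).eval (((s + g * r : ℕ) : ℝ) + z i) * y i ^ (l : ℕ) *
            (a ^ r * b ^ s) ^ (l : ℕ) := by
        symm
        apply Finset.sum_subset (Finset.filter_subset _ _)
        intro l _ hl
        simp only [mem_filter, mem_univ, true_and, not_not] at hl
        rw [hl]; simp
      rw [h6]
      exact (Finset.sum_subtype (univ.filter (fun l : Fin Q => P l ≠ 0)) (by simp)
        (fun l : Fin Q => (P l).eval (((s + g * r : ℕ) : ℝ) + z i) * y i ^ (l : ℕ) *
            (a ^ r * b ^ s) ^ (l : ℕ)))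
  -- count zeros
  have hroots : R₂ * S₂ ≤ D.natDegree := by
    have h1 : ((univ : Finset (Fin R₂ × Fin S₂)).image
        (fun q => (((q.2 : ℕ) + g * (q.1 : ℕ) : ℕ) : ℝ))).card = R₂ * S₂ := by
      rw [Finset.card_image_of_injective]
      · simp
      · rintro ⟨r, s⟩ ⟨r', s'⟩ h
        simp only [Nat.cast_inj] at h
        have hs := s.isLt
        have hs' := s'.isLt
        have e1 : (s : ℕ) = s' := by
          have h1 : ((s : ℕ) + g * r) % g = ((s' : ℕ) + g * r') % g := by rw [h]
          rw [Nat.add_mul_mod_self_left, Nat.add_mul_mod_self_left,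
            Nat.mod_eq_of_lt (by omega), Nat.mod_eq_of_lt (by omega)] at h1
          exact h1
        have e2 : (r : ℕ) = r' := by
          rw [e1] at h
          have : g * (r : ℕ) = g * r' := by omega
          exact Nat.eq_of_mul_eq_mul_left (by omega) this
        exact Prod.ext (Fin.ext e2) (Fin.ext e1)
    rw [← h1]
    refine le_trans (Finset.card_le_card ?_) ((Multiset.toFinset_card_le D.roots).trans
      (card_roots' D))
    intro x hx
    obtain ⟨⟨r, s⟩, _, rfl⟩ := Finset.mem_image.mp hx
    rw [Multiset.mem_toFinset, mem_roots hDne, IsRoot.def]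
    exact hzero r s r.isLt s.isLt
  omega

end Pool.Agent.H21.EHB
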