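import Pool.Agent.H21.EHB.Int
import Pool.Agent.H21.EHB.Zero

set_option autoImplicit false

open Finset BigOperators

namespace Pool.Agent.H21.EHB

/-- Selection of a nonzero minor. -/
theorem minor_sel {ι J : Type} [Fintype ι] [DecidableEq ι] (c : J → ι → ℝ)
    (h : ∀ p : ι → ℝ, p ≠ 0 → ∃ j, ∑ i, p i * c j i ≠ 0) :
    ∃ e : ι → J, Matrix.det (Matrix.of (fun i j => c (e j) i)) ≠ 0 := by
  classical
  have hspan : Submodule.span ℝ (Set.range c) = ⊤ := by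
    by_contra hne
    obtain ⟨f, hf0, hf⟩ := Submodule.exists_le_ker_of_lt_top _ (lt_top_iff_ne_top.mpr hne)
    have hfrep : ∀ v : ι → ℝ, f v = ∑ i, f (Pi.single i 1) * v i := by
      intro v
      conv_lhs => rw [← Finset.univ_sum_single v]
      rw [map_sum]
      refine Finset.sum_congr rfl (fun i _ => ?_)
      have : (Pi.single i (v i) : ι → ℝ) = v i • (Pi.single i 1 : ι → ℝ) := by
        rw [← Pi.single_smul, smul_eq_mul, mul_one]
      rw [this, map_smul, smul_eq_mul, mul_comm]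
    have hp : (fun i => f (Pi.single i 1)) ≠ 0 := by
      intro h0
      apply hf0
      ext v
      simp only [LinearMap.comp_apply, LinearMap.zero_apply]
      exact congrFun h0 v
    obtain ⟨j, hj⟩ := h _ hp
    apply hj
    rw [← hfrep]
    exact hf (Submodule.subset_span ⟨j, rfl⟩)
  obtain ⟨κ, a, ha, hsp, hli⟩ := exists_linearIndependent' ℝ c
  have hsp' : Submodule.span ℝ (Set.range (c ∘ a)) = ⊤ := by rw [hsp, hspan]
  let bas : Module.Basis κ ℝ (ι → ℝ) := Module.Basis.mk hli hsp'.ge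
  have : Fintype κ := FiniteDimensional.fintypeBasisIndex bas
  have hcard : Fintype.card κ = Fintype.card ι := by
    rw [← Module.finrank_eq_card_basis bas, Module.finrank_fintype_fun_eq_card]
  have eqv : ι ≃ κ := Fintype.equivOfCardEq hcard.symm
  refine ⟨fun j => a (eqv j), ?_⟩
  have hli2 : LinearIndependent ℝ (fun j : ι => c (a (eqv j))) :=
    hli.comp eqv eqv.injective
  have h3 : IsUnit (Matrix.of (fun j i => c (a (eqv j)) i) : Matrix ι ι ℝ) := by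
    rw [← Matrix.linearIndependent_rows_iff_isUnit]
    exact hli2
  rw [Matrix.isUnit_iff_isUnit_det] at h3
  rw [← Matrix.det_transpose]
  exact h3.ne_zero

/-- Two-logarithm inequality, first form. -/
theorem two_log_raw (t : ℕ) (ht : 1 ≤ t) (a₁ a₂ b₁ b₂ g : ℕ)
    (ha₁0 : 0 < a₁) (ha₂0 : 0 < a₂) (hb₁0 : 0 < b₁) (hb₂0 : 0 < b₂)
    (ha₂ : Nat.Coprime a₂ t) (hb₂ : Nat.Coprime b₂ t)
    (hb : (t : ℤ) ∣ (b₁ : ℤ) - b₂) (x : ℕ)
    (hx : (t : ℤ) ^ x ∣ (b₁ : ℤ) ^ g * a₂ - a₁ * (b₂ : ℤ) ^ g)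
    (K q R₁ S₁ R₂ S₂ : ℕ) (hK1 : 1 ≤ K)
    (hdist : ∀ r s r' s', r < R₁ → s < S₁ → r' < R₁ → s' < S₁ →
      ((a₁ : ℝ) / a₂) ^ r * ((b₁ : ℝ) / b₂) ^ s = ((a₁ : ℝ) / a₂) ^ r' * ((b₁ : ℝ) / b₂) ^ s' →
      r = r' ∧ s = s')
    (hQ : q + 1 ≤ R₁ * S₁) (hK : K * (q + 1) ≤ R₂ * S₂) (hS : S₂ ≤ g)
    (hxN : K * (q + 1) ≤ x) (A B : ℝ)
    (hA₁ : Real.log a₁ ≤ A) (hA₂ : Real.log a₂ ≤ A) (hB₁ : Real.log b₁ ≤ B)
    (hB₂ : Real.log b₂ ≤ B) :
    (K : ℝ) * q / 2 * Real.log t ≤ Real.log (K * (q + 1)) +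
      K * Real.log (((S₁ + S₂) + g * (R₁ + R₂) : ℕ)) +
      q * ((R₁ + R₂) * A + (S₁ + S₂) * B) := by
  classical
  set a : ℝ := (a₁ : ℝ) / a₂ with ha
  set b : ℝ := (b₁ : ℝ) / b₂ with hbdef
  have ha0 : 0 < a := by positivity
  have hb0 : 0 < b := by positivity
  -- a nonzero minor
  obtain ⟨e, he⟩ := minor_sel (ι := Fin K × Fin (q + 1)) (J := Fin (R₁ + R₂) × Fin (S₁ + S₂))
    (fun j i => (((j.2 : ℕ) + g * (j.1 : ℕ) : ℕ) : ℝ) ^ (i.1 : ℕ) *
        (a ^ (j.1 : ℕ) * b ^ (j.2 : ℕ)) ^ (i.2 : ℕ)) (by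
      intro p hp
      obtain ⟨r, s, hr, hs, hne⟩ := zero_lemma a b ha0 hb0 g K (q + 1) R₁ S₁ R₂ S₂ hdist hQ hK hS
        p hp
      exact ⟨(⟨r, hr⟩, ⟨s, hs⟩), hne⟩)
  set kk : Fin K × Fin (q + 1) → ℕ := fun i => i.1 with hkk
  set ll : Fin K × Fin (q + 1) → ℕ := fun i => i.2 with hll
  set r : Fin K × Fin (q + 1) → ℕ := fun j => (e j).1 with hr
  set s : Fin K × Fin (q + 1) → ℕ := fun j => (e j).2 with hs
  set N : ℕ := K * (q + 1) with hN
  have hcardN : Fintype.card (Fin K × Fin (q + 1)) = N := by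
    rw [Fintype.card_prod, Fintype.card_fin, Fintype.card_fin]
  set D : ℤ := Matrix.det (Matrix.of
      (fun i j => ent a₁ a₂ b₁ b₂ g q (kk i) (ll i) (r j) (s j))) with hD
  -- D ≠ 0
  have hDne : D ≠ 0 := by
    intro h0
    have h1 : ((D : ℤ) : ℝ) = (∏ j, ((a₂ : ℝ) ^ (r j) * (b₂ : ℝ) ^ (s j)) ^ q) *
        Matrix.det (Matrix.of (fun i j => (((s j) + g * (r j) : ℕ) : ℝ) ^ (kk i) *
        (a ^ (r j) * b ^ (s j)) ^ (ll i))) := by
      rw [← Matrix.det_mul_row]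
      have h2 : ((D : ℤ) : ℝ) = Matrix.det (Matrix.of (fun i j =>
          ((ent a₁ a₂ b₁ b₂ g q (kk i) (ll i) (r j) (s j) : ℤ) : ℝ))) :=
        RingHom.map_det (Int.castRingHom ℝ)
          (Matrix.of (fun i j => ent a₁ a₂ b₁ b₂ g q (kk i) (ll i) (r j) (s j)))
      rw [h2]
      congr 1
      ext i j
      simp only [Matrix.of_apply, ent]
      push_cast
      have h3 : ((a₂ : ℝ) ^ (r j) * (b₂ : ℝ) ^ (s j)) ^ q
          = ((a₂ : ℝ) ^ (r j) * (b₂ : ℝ) ^ (s j)) ^ (ll i) *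
            ((a₂ : ℝ) ^ (r j) * (b₂ : ℝ) ^ (s j)) ^ (q - ll i) := by
        rw [← pow_add, Nat.add_sub_cancel' (Nat.lt_succ_iff.mp i.2.isLt)]
      rw [h3]
      have h4 : (a₁ : ℝ) = a * a₂ := by rw [ha]; field_simp
      have h5 : (b₁ : ℝ) = b * b₂ := by rw [hbdef]; field_simp
      rw [h4, h5]
      ring
    rw [h0, Int.cast_zero] at h1
    have h2 : (∏ j, ((a₂ : ℝ) ^ (r j) * (b₂ : ℝ) ^ (s j)) ^ q) ≠ 0 :=
      Finset.prod_ne_zero_iff.mpr (fun j _ => by positivity)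
    exact (mul_ne_zero h2 he) h1.symm
  -- divisibility
  have hsumkk : ∑ i, kk i = (q + 1) * ∑ m ∈ range K, m := by
    simp only [hkk]
    rw [Fintype.sum_prod_type]
    simp only [Finset.sum_const, Finset.card_univ, Fintype.card_fin, smul_eq_mul]
    rw [← Finset.mul_sum, Finset.sum_range (fun m => m)]
  have hgauss : ∀ n : ℕ, ((∑ m ∈ range n, m : ℕ) : ℝ) = (n : ℝ) * (n - 1) / 2 := by
    intro n
    induction n with
    | zero => simp
    | succ n ih => rw [Finset.sum_range_succ, Nat.cast_add, ih]; push_cast; ring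
  have hNR : (N : ℝ) = K * (q + 1) := by rw [hN]; push_cast; ring
  have hK1R : (1 : ℝ) ≤ K := by exact_mod_cast hK1
  have hqR : (0 : ℝ) ≤ q := Nat.cast_nonneg _
  obtain ⟨V, hV⟩ : ∃ V, V + ∑ i, kk i = ∑ m ∈ range (Fintype.card (Fin K × Fin (q + 1))), m := by
    have h1 : ∑ i, kk i ≤ ∑ m ∈ range (Fintype.card (Fin K × Fin (q + 1))), m := by
      rw [hsumkk, hcardN]
      have h2 : (((q + 1) * ∑ m ∈ range K, m : ℕ) : ℝ) ≤ ((∑ m ∈ range N, m : ℕ) : ℝ) := by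
        rw [Nat.cast_mul, hgauss, hgauss, hNR]
        push_cast
        nlinarith [mul_nonneg hqR (by linarith : (0:ℝ) ≤ K), mul_nonneg (mul_nonneg hqR (by linarith : (0:ℝ) ≤ K)) (mul_nonneg (by linarith : (0 : ℝ) ≤ (q:ℝ) + 1) (by linarith : (0:ℝ) ≤ K))]
      exact_mod_cast h2
    exact ⟨_, Nat.sub_add_cancel h1⟩
  have hVval : (V : ℝ) = N * (K * q / 2) := by
    have h1 := congrArg (fun n : ℕ => (n : ℝ)) hV
    simp only [Nat.cast_add] at h1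
    rw [hsumkk, hcardN, Nat.cast_mul, hgauss, hgauss, hNR] at h1
    push_cast at h1
    rw [hNR]
    linear_combination h1
  have hdvd := int_minor_dvd t a₁ a₂ b₁ b₂ g q ha₂ hb₂ hb x hx (ι := Fin K × Fin (q + 1))
    (by rw [hcardN]; exact hxN) kk ll r s (fun i => Nat.lt_succ_iff.mp i.2.isLt) V hV.le
  rw [← hD] at hdvd
  have hlow : (t : ℝ) ^ V ≤ |(D : ℝ)| := by
    have h1 := Int.le_of_dvd (abs_pos.mpr hDne) ((dvd_abs _ _).mpr hdvd)
    have h2 : (((t : ℤ) ^ V : ℤ) : ℝ) ≤ ((|D| : ℤ) : ℝ) := by exact_mod_cast h1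
    push_cast at h2
    exact h2
  -- size
  set Zb : ℕ := (S₁ + S₂) + g * (R₁ + R₂) with hZb
  set E : ℝ := Real.exp ((R₁ + R₂) * A + (S₁ + S₂) * B) with hE
  have hS1pos : 1 ≤ S₁ := by
    rcases Nat.eq_zero_or_pos S₁ with h | h
    · rw [h] at hQ; omega
    · exact h
  have hZb1 : (1 : ℝ) ≤ Zb := by
    have : 1 ≤ Zb := by rw [hZb]; omega
    exact_mod_cast this
  have hlogn : ∀ n : ℕ, 0 < n → 0 ≤ Real.log n := fun n hn =>
    Real.log_nonneg (by exact_mod_cast hn)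
  have hA0 : 0 ≤ A := (hlogn a₁ ha₁0).trans hA₁
  have hB0 : 0 ≤ B := (hlogn b₁ hb₁0).trans hB₁
  have hpw : ∀ (n m : ℕ), 0 < n → 0 < m → Real.log n ≤ A → Real.log m ≤ B →
      ∀ j, ((n ^ (r j) * m ^ (s j) : ℕ) : ℝ) ≤ E := by
    intro n m hn hm hnA hmB j
    have hnR : (0 : ℝ) < n := by exact_mod_cast hn
    have hmR : (0 : ℝ) < m := by exact_mod_cast hm
    push_cast
    have h1 : (n : ℝ) ^ (r j) * (m : ℝ) ^ (s j) = Real.exp ((r j) * Real.log n + (s j) * Real.log m) := by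
      rw [Real.exp_add, Real.exp_nat_mul, Real.exp_nat_mul, Real.exp_log hnR, Real.exp_log hmR]
    rw [h1, hE]
    apply Real.exp_le_exp.mpr
    have hr1 : ((r j : ℕ) : ℝ) ≤ (R₁ : ℝ) + R₂ := by
      have := (e j).1.isLt
      have h : r j ≤ R₁ + R₂ := this.le
      exact_mod_cast h
    have hs1 : ((s j : ℕ) : ℝ) ≤ (S₁ : ℝ) + S₂ := by
      have := (e j).2.isLt
      have h : s j ≤ S₁ + S₂ := this.le
      exact_mod_cast h
    have e1 : ((r j : ℕ) : ℝ) * Real.log n ≤ ((R₁ : ℝ) + R₂) * A :=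
      mul_le_mul hr1 hnA (hlogn n hn) (by positivity)
    have e2 : ((s j : ℕ) : ℝ) * Real.log m ≤ ((S₁ : ℝ) + S₂) * B :=
      mul_le_mul hs1 hmB (hlogn m hm) (by positivity)
    linarith
  have hE1 : 1 ≤ E := by
    rw [hE]
    apply Real.one_le_exp
    positivity
  have hentbd : ∀ i j, |((ent a₁ a₂ b₁ b₂ g q (kk i) (ll i) (r j) (s j) : ℤ) : ℝ)|
      ≤ (Zb : ℝ) ^ K * E ^ q := by
    intro i j
    have hl : ll i ≤ q := Nat.lt_succ_iff.mp i.2.isLt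
    have hk : kk i ≤ K := i.1.isLt.le
    have e1 : (((s j) + g * (r j) : ℕ) : ℝ) ^ (kk i) ≤ (Zb : ℝ) ^ K := by
      calc (((s j) + g * (r j) : ℕ) : ℝ) ^ (kk i) ≤ (Zb : ℝ) ^ (kk i) := by
            apply pow_le_pow_left₀ (Nat.cast_nonneg _)
            have hr1 : r j ≤ R₁ + R₂ := (e j).1.isLt.le
            have hs1 : s j ≤ S₁ + S₂ := (e j).2.isLt.le
            have : (s j) + g * (r j) ≤ Zb := by
              rw [hZb]
              exact Nat.add_le_add hs1 (Nat.mul_le_mul_left g hr1)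
            exact_mod_cast this
        _ ≤ (Zb : ℝ) ^ K := pow_le_pow_right₀ hZb1 hk
    have e2 : ((a₁ ^ (r j) * b₁ ^ (s j) : ℕ) : ℝ) ^ (ll i) ≤ E ^ (ll i) :=
      pow_le_pow_left₀ (Nat.cast_nonneg _) (hpw a₁ b₁ ha₁0 hb₁0 hA₁ hB₁ j) _
    have e3 : ((a₂ ^ (r j) * b₂ ^ (s j) : ℕ) : ℝ) ^ (q - ll i) ≤ E ^ (q - ll i) :=
      pow_le_pow_left₀ (Nat.cast_nonneg _) (hpw a₂ b₂ ha₂0 hb₂0 hA₂ hB₂ j) _
    have e4 : E ^ (ll i) * E ^ (q - ll i) = E ^ q := by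
      rw [← pow_add, Nat.add_sub_cancel' hl]
    have e5 : ((ent a₁ a₂ b₁ b₂ g q (kk i) (ll i) (r j) (s j) : ℤ) : ℝ)
        = (((s j) + g * (r j) : ℕ) : ℝ) ^ (kk i) * ((a₁ ^ (r j) * b₁ ^ (s j) : ℕ) : ℝ) ^ (ll i) *
          ((a₂ ^ (r j) * b₂ ^ (s j) : ℕ) : ℝ) ^ (q - ll i) := by
      simp only [ent]
      push_cast
      ring
    rw [e5, abs_of_nonneg (by positivity), ← e4, ← mul_assoc]
    gcongr
  have hup : |(D : ℝ)| ≤ (N : ℝ) ^ N * ((Zb : ℝ) ^ K * E ^ q) ^ N := by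
    have h1 := Matrix.det_le (A := (Matrix.of (fun i j =>
          ((ent a₁ a₂ b₁ b₂ g q (kk i) (ll i) (r j) (s j) : ℤ) : ℝ))))
      (abv := (AbsoluteValue.abs : AbsoluteValue ℝ ℝ)) (x := (Zb : ℝ) ^ K * E ^ q)
      (fun i j => hentbd i j)
    have h2 : ((D : ℤ) : ℝ) = Matrix.det (Matrix.of (fun i j =>
          ((ent a₁ a₂ b₁ b₂ g q (kk i) (ll i) (r j) (s j) : ℤ) : ℝ))) :=
        RingHom.map_det (Int.castRingHom ℝ)
          (Matrix.of (fun i j => ent a₁ a₂ b₁ b₂ g q (kk i) (ll i) (r j) (s j)))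
    rw [← h2, hcardN, nsmul_eq_mul] at h1
    refine le_trans h1 ?_
    have h3 : ((Nat.factorial N : ℕ) : ℝ) ≤ (N : ℝ) ^ N := by
      exact_mod_cast Nat.factorial_le_pow N
    exact mul_le_mul_of_nonneg_right h3 (by positivity)
  have hNpos : (0 : ℝ) < N := by rw [hNR]; positivity
  have htR : (1 : ℝ) ≤ t := by exact_mod_cast ht
  have hlog := Real.log_le_log (by positivity) (hlow.trans hup)
  rw [Real.log_pow, Real.log_mul (by positivity) (by positivity), Real.log_pow, Real.log_pow,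
    Real.log_mul (by positivity) (by positivity), Real.log_pow, Real.log_pow, hE, Real.log_exp,
    hVval] at hlog
  have h6 : (N : ℝ) * (K * q / 2 * Real.log t) ≤ N * (Real.log N + (K * Real.log Zb +
      q * ((R₁ + R₂) * A + (S₁ + S₂) * B))) := by
    linarith
  have h7 := le_of_mul_le_mul_left h6 hNpos
  rw [hNR] at h7
  linarith

end Pool.Agent.H21.EHB
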