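import Pool.Agent.H21.EHB.Arith

set_option autoImplicit false

open Finset BigOperators

namespace Pool.Agent.H21.EHB

theorem fermat2 (t : ℕ) (ht : t.Prime) (u : ℕ) (hu : ¬ t ∣ u) :
    (t : ℤ) ∣ ((u ^ (2 * (t - 1)) : ℕ) : ℤ) - 1 := by
  have hc : IsCoprime (u : ℤ) (t : ℤ) := by
    rw [Nat.isCoprime_iff_coprime]
    exact ((Nat.Prime.coprime_iff_not_dvd ht).mpr hu).symm
  have h1 := Int.ModEq.pow_card_sub_one_eq_one ht hc
  have h2 := h1.pow 2
  rw [one_pow, ← pow_mul] at h2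
  have h3 := (Int.modEq_iff_dvd.mp h2.symm)
  rw [mul_comm] at h3
  push_cast
  exact h3

theorem pr_pos (S : Finset ℕ) (hS : ∀ p ∈ S, p.Prime) (f : ℕ → ℤ) : 0 < pr S f :=
  Finset.prod_pos (fun p hp => pow_pos (hS p hp).pos _)

theorem pr_coprime (S : Finset ℕ) (hS : ∀ p ∈ S, p.Prime) (t : ℕ) (ht : t.Prime) (htS : t ∉ S)
    (f : ℕ → ℤ) : Nat.Coprime (pr S f) t := by
  apply Nat.Coprime.prod_left
  intro p hp
  apply Nat.Coprime.pow_left
  rw [Nat.coprime_primes (hS p hp) ht]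
  rintro rfl
  exact htS hp

theorem pr_pow (S : Finset ℕ) (f : ℕ → ℤ) (n : ℕ) :
    pr S f ^ n = ∏ p ∈ S, p ^ ((f p).toNat * n) := by
  rw [pr, ← Finset.prod_pow]
  exact Finset.prod_congr rfl (fun p _ => (pow_mul _ _ _).symm)

theorem log_pr_le (S : Finset ℕ) (hS : ∀ p ∈ S, p.Prime) (f : ℕ → ℤ) (w : ℕ → ℝ)
    (hw : ∀ p ∈ S, |(f p : ℝ)| ≤ w p) :
    Real.log (pr S f) ≤ ∑ p ∈ S, w p * Real.log p := by
  rw [pr, log_prod S hS]
  refine Finset.sum_le_sum (fun p hp => ?_)
  apply mul_le_mul_of_nonneg_right _ (Real.log_nonneg (by exact_mod_cast (hS p hp).one_le))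
  refine le_trans ?_ (hw p hp)
  rcases le_total 0 (f p) with h | h
  · have h1 : (((f p).toNat : ℕ) : ℤ) = f p := Int.toNat_of_nonneg h
    have h2 : (((f p).toNat : ℕ) : ℝ) = (f p : ℝ) := by exact_mod_cast h1
    rw [h2]
    exact le_abs_self _
  · rw [Int.toNat_of_nonpos h]
    simp

theorem natAbs_bound (e q s : ℤ) (g : ℕ) (ρ : ℝ) (hρ : 2 ≤ ρ) (hg : 0 < g)
    (he : e = g * q + s) (hs : |(s : ℝ)| ≤ g / ρ) : |(q : ℝ)| ≤ 2 / g * |(e : ℝ)| := by
  have hgR : (0 : ℝ) < g := by exact_mod_cast hg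
  rw [div_mul_eq_mul_div, le_div_iff₀ hgR]
  rcases eq_or_ne q 0 with h | h
  · rw [h]; simp
  · have h1 : (1 : ℝ) ≤ |(q : ℝ)| := by
      rw [← Int.cast_abs]
      exact_mod_cast Int.one_le_abs h
    have h2 : (g : ℝ) / ρ ≤ g / 2 := div_le_div_of_nonneg_left hgR.le (by norm_num) hρ
    have h3 : (g : ℝ) * |(q : ℝ)| ≤ |(e : ℝ)| + |(s : ℝ)| := by
      have h4 : (g : ℝ) * q = e - s := by rw [he]; push_cast; ring
      have h5 : (g : ℝ) * |(q : ℝ)| = |(e : ℝ) - s| := by
        rw [← h4, abs_mul, abs_of_pos hgR]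
      rw [h5]
      have := abs_add_le (e : ℝ) (-s)
      rwa [abs_neg, ← sub_eq_add_neg] at this
    nlinarith

/-- The dependent case. -/
theorem dep_case (a b t x g : ℕ) (ha : 0 < a) (hb : 0 < b) (hab : Nat.Coprime a b)
    (ht : t.Prime) (hta : ¬ t ∣ a) (htb : ¬ t ∣ b) (htx : t ^ x ∣ a + b)
    (q s : ℕ → ℤ) (ρ L : ℝ) (hρ : 2 ≤ ρ) (hg : 0 < g)
    (hes : ∀ p ∈ (a * b).primeFactors,
      ((a.factorization p : ℤ) - b.factorization p) = g * q p + s p)
    (hs : ∀ p ∈ (a * b).primeFactors, |(s p : ℝ)| ≤ g / ρ)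
    (hL : ∑ p ∈ (a * b).primeFactors, Real.log p ≤ L)
    (h : ℝ) (hh : h = Real.log ((a + b : ℕ)))
    (H1 : Real.log 2 + g / ρ * L < h)
    (H2 : 2 * ((2 * (t - 1) : ℕ) : ℝ) * h / g + Real.log (2 * h) < (x : ℝ) * Real.log t)
    (i j : ℤ) (hij : ∀ p ∈ (a * b).primeFactors, i * s p = j * q p) (hne : i ≠ 0 ∨ j ≠ 0) :
    False := by
  classical
  set S := (a * b).primeFactors with hS
  set P : ℕ := 2 * (t - 1) with hP
  have hab0 : a * b ≠ 0 := (Nat.mul_pos ha hb).ne'
  have hSp : ∀ p ∈ S, p.Prime := fun p hp => Nat.prime_of_mem_primeFactors hp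
  have haS : a.primeFactors ⊆ S := Nat.primeFactors_mono (dvd_mul_right a b) hab0
  have hbS : b.primeFactors ⊆ S := Nat.primeFactors_mono (dvd_mul_left b a) hab0
  have hlog0 : ∀ p ∈ S, 0 ≤ Real.log p := fun p hp =>
    Real.log_nonneg (by exact_mod_cast (hSp p hp).one_le)
  have hL0 : 0 ≤ L := (Finset.sum_nonneg hlog0).trans hL
  have hgR : (0 : ℝ) < g := by exact_mod_cast hg
  have hρ0 : (0 : ℝ) < ρ := by linarith
  have haR : (0 : ℝ) < a := by exact_mod_cast ha
  have hbR : (0 : ℝ) < b := by exact_mod_cast hb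
  have hloga : Real.log a = ∑ p ∈ S, (a.factorization p : ℝ) * Real.log p := by
    rw [← log_prod S hSp, self_prod S a ha.ne' haS]
  have hlogb : Real.log b = ∑ p ∈ S, (b.factorization p : ℝ) * Real.log p := by
    rw [← log_prod S hSp, self_prod S b hb.ne' hbS]
  -- coprimality
  have hcop : ∀ p ∈ S, a.factorization p = 0 ∨ b.factorization p = 0 := by
    intro p hp
    by_contra hcon
    push Not at hcon
    have h1 : p ∣ a := Nat.dvd_of_factorization_pos hcon.1
    have h2 : p ∣ b := Nat.dvd_of_factorization_pos hcon.2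
    exact (hSp p hp).one_lt.ne' (Nat.eq_one_of_dvd_coprimes hab h1 h2)
  have hh2 : h ≤ Real.log 2 + max (Real.log a) (Real.log b) := by
    rw [hh]
    push_cast
    rcases le_total a b with hle | hle
    · have : (a : ℝ) ≤ b := by exact_mod_cast hle
      have h1 : Real.log ((a : ℝ) + b) ≤ Real.log (2 * b) :=
        Real.log_le_log (by positivity) (by linarith)
      rw [Real.log_mul (by norm_num) hbR.ne'] at h1
      exact h1.trans (add_le_add le_rfl (le_max_right _ _))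
    · have : (b : ℝ) ≤ a := by exact_mod_cast hle
      have h1 : Real.log ((a : ℝ) + b) ≤ Real.log (2 * a) :=
        Real.log_le_log (by positivity) (by linarith)
      rw [Real.log_mul (by norm_num) haR.ne'] at h1
      exact h1.trans (add_le_add le_rfl (le_max_left _ _))
  -- if the exponents are small, contradiction
  have hsmall : (∀ p ∈ S, |(((a.factorization p : ℤ) - b.factorization p : ℤ) : ℝ)| ≤ g / ρ) →
      False := by
    intro hsm
    have hva : ∀ p ∈ S, (a.factorization p : ℝ) ≤ g / ρ := by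
      intro p hp
      have h1 := hsm p hp
      push_cast at h1
      rcases hcop p hp with h2 | h2
      · rw [h2]; simp; positivity
      · rw [h2] at h1
        simpa using h1
    have hvb : ∀ p ∈ S, (b.factorization p : ℝ) ≤ g / ρ := by
      intro p hp
      have h1 := hsm p hp
      push_cast at h1
      rcases hcop p hp with h2 | h2
      · rw [h2] at h1
        simpa using h1
      · rw [h2]; simp; positivity
    have e1 : Real.log a ≤ g / ρ * L := by
      rw [hloga]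
      calc ∑ p ∈ S, (a.factorization p : ℝ) * Real.log p ≤ ∑ p ∈ S, g / ρ * Real.log p :=
            Finset.sum_le_sum (fun p hp => mul_le_mul_of_nonneg_right (hva p hp) (hlog0 p hp))
        _ = g / ρ * ∑ p ∈ S, Real.log p := by rw [Finset.mul_sum]
        _ ≤ g / ρ * L := mul_le_mul_of_nonneg_left hL (by positivity)
    have e2 : Real.log b ≤ g / ρ * L := by
      rw [hlogb]
      calc ∑ p ∈ S, (b.factorization p : ℝ) * Real.log p ≤ ∑ p ∈ S, g / ρ * Real.log p :=
            Finset.sum_le_sum (fun p hp => mul_le_mul_of_nonneg_right (hvb p hp) (hlog0 p hp))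
        _ = g / ρ * ∑ p ∈ S, Real.log p := by rw [Finset.mul_sum]
        _ ≤ g / ρ * L := mul_le_mul_of_nonneg_left hL (by positivity)
    have e3 := max_le e1 e2
    linarith
  -- i ≠ 0
  have hi : i ≠ 0 := by
    intro hi0
    have hj : j ≠ 0 := by
      rcases hne with h1 | h1
      · exact absurd hi0 h1
      · exact h1
    apply hsmall
    intro p hp
    have h1 := hij p hp
    rw [hi0, zero_mul] at h1
    have h2 : q p = 0 := by
      rcases mul_eq_zero.mp h1.symm with h3 | h3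
      · exact absurd h3 hj
      · exact h3
    rw [hes p hp, h2]
    simpa using hs p hp
  -- some q p ≠ 0
  obtain ⟨p₀, hp₀, hq₀⟩ : ∃ p ∈ S, q p ≠ 0 := by
    by_contra hcon
    push Not at hcon
    apply hsmall
    intro p hp
    rw [hes p hp, hcon p hp]
    simpa using hs p hp
  have habsi : (1 : ℝ) ≤ |(i : ℝ)| := by
    rw [← Int.cast_abs]
    exact_mod_cast Int.one_le_abs hi
  have hjb : |(j : ℝ)| ≤ |(i : ℝ)| * (g / 2) := by
    have h1 : |(j : ℝ)| ≤ |(j : ℝ)| * |(q p₀ : ℝ)| := by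
      have : (1 : ℝ) ≤ |(q p₀ : ℝ)| := by
        rw [← Int.cast_abs]
        exact_mod_cast Int.one_le_abs hq₀
      nlinarith [abs_nonneg (j : ℝ)]
    have h2 : |(j : ℝ)| * |(q p₀ : ℝ)| = |(i : ℝ)| * |(s p₀ : ℝ)| := by
      rw [← abs_mul, ← abs_mul]
      congr 1
      exact_mod_cast (hij p₀ hp₀).symm
    have h3 : |(s p₀ : ℝ)| ≤ g / 2 := (hs p₀ hp₀).trans
      (div_le_div_of_nonneg_left hgR.le (by norm_num) hρ)
    calc |(j : ℝ)| ≤ |(i : ℝ)| * |(s p₀ : ℝ)| := by rw [← h2]; exact h1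
      _ ≤ |(i : ℝ)| * (g / 2) := mul_le_mul_of_nonneg_left h3 (abs_nonneg _)
  set m : ℤ := g * i + j with hm
  have hmb : |(i : ℝ)| * (g / 2) ≤ |(m : ℝ)| := by
    have h1 : (m : ℝ) = g * i + j := by rw [hm]; push_cast; ring
    have h2 : |(g : ℝ) * i| ≤ |(m : ℝ)| + |(j : ℝ)| := by
      have h3 : (g : ℝ) * i = m - j := by rw [h1]; ring
      rw [h3]
      have := abs_add_le (m : ℝ) (-j)
      rwa [abs_neg, ← sub_eq_add_neg] at this
    rw [abs_mul, abs_of_pos hgR] at h2
    linarith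
  have hem : ∀ p ∈ S, i * ((a.factorization p : ℤ) - b.factorization p) = m * q p := by
    intro p hp
    rw [hes p hp, hm]
    linear_combination hij p hp
  -- gcd
  obtain ⟨i', m', hcop', hi', hm'⟩ :=
    Int.exists_gcd_one (m := i) (n := m) (Int.gcd_pos_of_ne_zero_left m hi)
  set d : ℕ := Int.gcd i m with hd
  have hd0 : 0 < d := Int.gcd_pos_of_ne_zero_left m hi
  have hdi : (d : ℝ) ≤ |(i : ℝ)| := by
    have h1 : (d : ℤ) ∣ i := Int.gcd_dvd_left ..
    have h2 := Int.le_of_dvd (abs_pos.mpr hi) ((dvd_abs _ _).mpr h1)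
    have h3 : (((d : ℤ) : ℤ) : ℝ) ≤ ((|i| : ℤ) : ℝ) := by exact_mod_cast h2
    rw [Int.cast_abs] at h3
    exact_mod_cast h3
  have hMb : (g : ℝ) / 2 ≤ |(m' : ℝ)| := by
    have h1 : |(m : ℝ)| = |(m' : ℝ)| * d := by
      rw [hm']; push_cast; rw [abs_mul, Nat.abs_cast]
    have hdR : (0 : ℝ) < d := by exact_mod_cast hd0
    have h2 : (d : ℝ) * (g / 2) ≤ |(m' : ℝ)| * d := by
      rw [← h1]
      exact (mul_le_mul_of_nonneg_right hdi (by positivity)).trans hmb
    have h3 : (g / 2 : ℝ) * d ≤ |(m' : ℝ)| * d := by linarith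
    exact le_of_mul_le_mul_right h3 hdR
  set M : ℕ := m'.natAbs with hM
  have hMR : (M : ℝ) = |(m' : ℝ)| := by
    rw [hM, Nat.cast_natAbs, Int.cast_abs]
  have hM0 : 0 < M := by
    have : (0 : ℝ) < M := by rw [hMR]; exact lt_of_lt_of_le (by positivity) hMb
    exact_mod_cast this
  have hMdvd : ∀ p ∈ S, (M : ℤ) ∣ (a.factorization p : ℤ) - b.factorization p := by
    intro p hp
    have h1 := hem p hp
    have h2 : i' * ((a.factorization p : ℤ) - b.factorization p) = m' * q p := by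
      have hdz : (d : ℤ) ≠ 0 := by exact_mod_cast hd0.ne'
      apply mul_left_cancel₀ hdz
      rw [hi', hm'] at h1
      linear_combination h1
    have h3 : m' ∣ i' * ((a.factorization p : ℤ) - b.factorization p) := ⟨q p, h2⟩
    have h4 : IsCoprime m' i' := (Int.isCoprime_iff_gcd_eq_one.mpr hcop').symm
    rw [hM]
    exact Int.natAbs_dvd.mpr (h4.dvd_of_dvd_mul_left h3)
  have hMa : ∀ p ∈ S, M ∣ a.factorization p := by
    intro p hp
    rcases hcop p hp with h2 | h2
    · rw [h2]; exact dvd_zero _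
    · have := hMdvd p hp
      rw [h2, Nat.cast_zero, sub_zero] at this
      exact_mod_cast this
  have hMb' : ∀ p ∈ S, M ∣ b.factorization p := by
    intro p hp
    rcases hcop p hp with h2 | h2
    · have := hMdvd p hp
      rw [h2, Nat.cast_zero, zero_sub, dvd_neg] at this
      exact_mod_cast this
    · rw [h2]; exact dvd_zero _
  set u : ℕ := ∏ p ∈ S, p ^ (a.factorization p / M) with hu
  set w : ℕ := ∏ p ∈ S, p ^ (b.factorization p / M) with hw
  have hau : a = u ^ M := by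
    conv_lhs => rw [← self_prod S a ha.ne' haS]
    rw [hu, ← Finset.prod_pow]
    refine Finset.prod_congr rfl (fun p hp => ?_)
    rw [← pow_mul, Nat.div_mul_cancel (hMa p hp)]
  have hbw : b = w ^ M := by
    conv_lhs => rw [← self_prod S b hb.ne' hbS]
    rw [hw, ← Finset.prod_pow]
    refine Finset.prod_congr rfl (fun p hp => ?_)
    rw [← pow_mul, Nat.div_mul_cancel (hMb' p hp)]
  have hu0 : 0 < u := Nat.pos_of_ne_zero (fun h0 => by
    rw [h0, zero_pow hM0.ne'] at hau; omega)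
  have hw0 : 0 < w := Nat.pos_of_ne_zero (fun h0 => by
    rw [h0, zero_pow hM0.ne'] at hbw; omega)
  have htu : ¬ t ∣ u := fun hdv => hta (by rw [hau]; exact dvd_pow hdv hM0.ne')
  have htw : ¬ t ∣ w := fun hdv => htb (by rw [hbw]; exact dvd_pow hdv hM0.ne')
  -- u ≠ w
  have huw : u ≠ w := by
    intro heq
    have h1 : a = b := by rw [hau, hbw, heq]
    have h2 : a = 1 := by
      rw [← h1] at hab
      exact (Nat.coprime_self a).mp hab
    apply hsmall
    intro p hp
    rw [← h1, sub_self]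
    simp
    positivity
  have hPpos : 0 < P := by
    have := ht.two_le
    omega
  set U : ℤ := ((u ^ P : ℕ) : ℤ) with hU
  set W : ℤ := ((w ^ P : ℕ) : ℤ) with hW
  have hUW : U ≠ W := by
    intro heq
    have : u ^ P = w ^ P := by
      rw [hU, hW] at heq
      exact_mod_cast heq
    exact huw (Nat.pow_left_injective hPpos.ne' this)
  have htUW : (t : ℤ) ∣ U - W := by
    have h1 := fermat2 t ht u htu
    have h2 := fermat2 t ht w htw
    have h3 := dvd_sub h1 h2
    have h4 : U - W = (((u ^ P : ℕ) : ℤ) - 1) - (((w ^ P : ℕ) : ℤ) - 1) := by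
      rw [hU, hW]; ring
    rw [h4]
    exact h3
  have h4UW : t = 2 → (4 : ℤ) ∣ U - W := by
    intro h2
    have hP2 : P = 2 := by rw [hP, h2]
    subst h2
    have e1 : (2 : ℤ) ∣ (u : ℤ) - w := by omega
    have e2 : (2 : ℤ) ∣ (u : ℤ) + w := by omega
    have e3 : U - W = ((u : ℤ) - w) * ((u : ℤ) + w) := by
      rw [hU, hW, hP2]; push_cast; ring
    rw [e3]
    have := mul_dvd_mul e1 e2
    norm_num at this
    exact this
  have htU : ¬ (t : ℤ) ∣ U := by
    intro hdv
    rw [hU] at hdv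
    have : t ∣ u ^ P := by exact_mod_cast hdv
    exact htu (ht.dvd_of_dvd_pow this)
  have hxdvd : (t : ℤ) ^ x ∣ U ^ M - W ^ M := by
    have e1 : U ^ M = (a : ℤ) ^ P := by rw [hU, hau]; push_cast; ring
    have e2 : W ^ M = (b : ℤ) ^ P := by rw [hW, hbw]; push_cast; ring
    rw [e1, e2]
    have e3 : (t : ℤ) ^ x ∣ (a : ℤ) - (-b) := by
      rw [sub_neg_eq_add]
      exact_mod_cast htx
    have e4 := e3.trans (sub_dvd_pow_sub_pow (a : ℤ) (-b) P)
    have e5 : (-(b : ℤ)) ^ P = (b : ℤ) ^ P := by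
      rw [hP, pow_mul, pow_mul, neg_sq]
    rwa [e5] at e4
  have hfin := lte t ht U W htUW h4UW htU M x hxdvd
  -- size
  have hle : ((t : ℝ)) ^ x ≤ |((U - W : ℤ) : ℝ)| * M := by
    have hne0 : (U - W) * (M : ℤ) ≠ 0 := mul_ne_zero (sub_ne_zero.mpr hUW) (by exact_mod_cast hM0.ne')
    have h1 := Int.le_of_dvd (abs_pos.mpr hne0) ((dvd_abs _ _).mpr hfin)
    have h2 : (((t : ℤ) ^ x : ℤ) : ℝ) ≤ ((|(U - W) * (M : ℤ)| : ℤ) : ℝ) := by exact_mod_cast h1
    rw [Int.cast_abs, Int.cast_mul, abs_mul] at h2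
    push_cast at h2
    rw [Nat.abs_cast] at h2
    push_cast
    exact h2
  have hmaxlog : max (Real.log a) (Real.log b) ≤ h := by
    rw [hh]
    push_cast
    apply max_le
    · exact Real.log_le_log haR (by linarith)
    · exact Real.log_le_log hbR (by linarith)
  have hloguw : ∀ y : ℕ, 0 < y → ∀ z : ℕ, z = y ^ M → Real.log z ≤ h →
      Real.log y ≤ h / M := by
    intro y hy z hz hzh
    rw [le_div_iff₀ (by exact_mod_cast hM0)]
    rw [hz] at hzh
    push_cast at hzh
    rw [Real.log_pow] at hzh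
    linarith
  have hub := hloguw u hu0 a hau ((le_max_left _ _).trans hmaxlog)
  have hwb := hloguw w hw0 b hbw ((le_max_right _ _).trans hmaxlog)
  have hMRpos : (0 : ℝ) < M := by exact_mod_cast hM0
  have hUWb : |((U - W : ℤ) : ℝ)| ≤ Real.exp (P * (h / M)) := by
    have hpow : ∀ y : ℕ, 0 < y → Real.log y ≤ h / M → ((y ^ P : ℕ) : ℝ) ≤ Real.exp (P * (h / M)) := by
      intro y hy hyh
      have hyR : (0 : ℝ) < y := by exact_mod_cast hy
      push_cast
      rw [← Real.exp_log (pow_pos hyR P), Real.log_pow]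
      apply Real.exp_le_exp.mpr
      exact mul_le_mul_of_nonneg_left hyh (Nat.cast_nonneg _)
    have f1 := hpow u hu0 hub
    have f2 := hpow w hw0 hwb
    have f3 : (0 : ℝ) ≤ ((u ^ P : ℕ) : ℝ) := Nat.cast_nonneg _
    have f4 : (0 : ℝ) ≤ ((w ^ P : ℕ) : ℝ) := Nat.cast_nonneg _
    have f5 : ((U - W : ℤ) : ℝ) = ((u ^ P : ℕ) : ℝ) - ((w ^ P : ℕ) : ℝ) := by
      rw [hU, hW]; push_cast; ring
    rw [f5, abs_le]
    constructor <;> linarith
  have hh0 : 0 ≤ h := by
    have : (0 : ℝ) ≤ g / ρ * L := by positivity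
    have := Real.log_nonneg (show (1 : ℝ) ≤ 2 by norm_num)
    linarith
  -- M ≤ 2 h
  have hM2h : (M : ℝ) ≤ 2 * h := by
    -- some exponent is nonzero
    obtain ⟨p, hp, hpe⟩ : ∃ p ∈ S, (a.factorization p : ℤ) - b.factorization p ≠ 0 := by
      by_contra hcon
      push Not at hcon
      apply hsmall
      intro p hp
      rw [hcon p hp]
      simp
      positivity
    have hlogp : (0.69 : ℝ) ≤ Real.log p := by
      have h1 : Real.log 2 ≤ Real.log p :=
        Real.log_le_log (by norm_num) (by exact_mod_cast (hSp p hp).two_le)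
      linarith [Real.log_two_gt_d9]
    rcases hcop p hp with h2 | h2
    · have hb1 : b.factorization p ≠ 0 := by
        intro h3; rw [h2, h3] at hpe; exact hpe (by simp)
      have h3 : M ≤ b.factorization p := Nat.le_of_dvd (Nat.pos_of_ne_zero hb1) (hMb' p hp)
      have h4 : (b.factorization p : ℝ) * Real.log p ≤ Real.log b := by
        rw [hlogb]
        exact Finset.single_le_sum (f := fun p => (b.factorization p : ℝ) * Real.log p)
          (fun r hr => mul_nonneg (Nat.cast_nonneg _) (hlog0 r hr)) hp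
      have h5 : (M : ℝ) ≤ b.factorization p := by exact_mod_cast h3
      have h6 : Real.log b ≤ h := (le_max_right _ _).trans hmaxlog
      nlinarith
    · have ha1 : a.factorization p ≠ 0 := by
        intro h3; rw [h2, h3] at hpe; exact hpe (by simp)
      have h3 : M ≤ a.factorization p := Nat.le_of_dvd (Nat.pos_of_ne_zero ha1) (hMa p hp)
      have h4 : (a.factorization p : ℝ) * Real.log p ≤ Real.log a := by
        rw [hloga]
        exact Finset.single_le_sum (f := fun p => (a.factorization p : ℝ) * Real.log p)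
          (fun r hr => mul_nonneg (Nat.cast_nonneg _) (hlog0 r hr)) hp
      have h5 : (M : ℝ) ≤ a.factorization p := by exact_mod_cast h3
      have h6 : Real.log a ≤ h := (le_max_left _ _).trans hmaxlog
      nlinarith
  -- conclusion
  have htR : (0 : ℝ) < t := by exact_mod_cast ht.pos
  have hfinal : (x : ℝ) * Real.log t ≤ P * (h / M) + Real.log M := by
    have h1 : ((t : ℝ)) ^ x ≤ Real.exp (P * (h / M)) * M :=
      hle.trans (mul_le_mul_of_nonneg_right hUWb hMRpos.le)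
    have h2 := Real.log_le_log (by positivity) h1
    rw [Real.log_pow, Real.log_mul (Real.exp_pos _).ne' hMRpos.ne', Real.log_exp] at h2
    exact h2
  have hgM : (g : ℝ) / 2 ≤ M := by rw [hMR]; exact hMb
  have h1 : (P : ℝ) * (h / M) ≤ 2 * P * h / g := by
    have e1 : h / M ≤ h / (g / 2) := div_le_div_of_nonneg_left hh0 (by positivity) hgM
    calc (P : ℝ) * (h / M) ≤ P * (h / (g / 2)) := mul_le_mul_of_nonneg_left e1 (Nat.cast_nonneg _)
      _ = 2 * P * h / g := by field_simp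
  have h2 : Real.log M ≤ Real.log (2 * h) := Real.log_le_log hMRpos hM2h
  linarith

/-- The arithmetic step. -/
theorem step (a b t x g : ℕ) (ha : 0 < a) (hb : 0 < b) (hab : Nat.Coprime a b)
    (ht : t.Prime) (hta : ¬ t ∣ a) (htb : ¬ t ∣ b) (htx : t ^ x ∣ a + b)
    (q s : ℕ → ℤ) (ρ L : ℝ) (hρ : 2 ≤ ρ) (hg : 0 < g)
    (hes : ∀ p ∈ (a * b).primeFactors,
      ((a.factorization p : ℤ) - b.factorization p) = g * q p + s p)
    (hs : ∀ p ∈ (a * b).primeFactors, |(s p : ℝ)| ≤ g / ρ)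
    (hL : ∑ p ∈ (a * b).primeFactors, Real.log p ≤ L)
    (h : ℝ) (hh : h = Real.log ((a + b : ℕ)))
    (H1 : Real.log 2 + g / ρ * L < h)
    (H2 : 2 * ((2 * (t - 1) : ℕ) : ℝ) * h / g + Real.log (2 * h) < (x : ℝ) * Real.log t)
    (A B Λ : ℝ) (hA : 1 ≤ A) (hB : 1 ≤ B) (hΛ : 1 ≤ Λ)
    (hAv : ((2 * (t - 1) : ℕ) : ℝ) * (g / ρ * L) ≤ A)
    (hBv : 4 * ((2 * (t - 1) : ℕ) : ℝ) * h / g ≤ B)
    (hgA : 1200 * A * Λ + 1 ≤ g) (hΛ2 : Real.log (4800 * g * B * Λ) ≤ Λ) :
    (x : ℝ) < 1400000 * A * B * Λ ^ 2 := by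
  classical
  set S := (a * b).primeFactors with hS
  set P : ℕ := 2 * (t - 1) with hP
  have hab0 : a * b ≠ 0 := (Nat.mul_pos ha hb).ne'
  have hSp : ∀ p ∈ S, p.Prime := fun p hp => Nat.prime_of_mem_primeFactors hp
  have haS : a.primeFactors ⊆ S := Nat.primeFactors_mono (dvd_mul_right a b) hab0
  have hbS : b.primeFactors ⊆ S := Nat.primeFactors_mono (dvd_mul_left b a) hab0
  have hlog0 : ∀ p ∈ S, 0 ≤ Real.log p := fun p hp =>
    Real.log_nonneg (by exact_mod_cast (hSp p hp).one_le)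
  have hL0 : 0 ≤ L := (Finset.sum_nonneg hlog0).trans hL
  have hgR : (0 : ℝ) < g := by exact_mod_cast hg
  have hρ0 : (0 : ℝ) < ρ := by linarith
  have htS : t ∉ S := by
    intro hmem
    rcases (ht.dvd_mul).mp (Nat.dvd_of_mem_primeFactors hmem) with h1 | h1
    · exact hta h1
    · exact htb h1
  have hPpos : 0 < P := by
    have := ht.two_le
    omega
  -- logarithms of the four numbers
  have hlogs : ∀ f : ℕ → ℤ, (∀ p ∈ S, |(f p : ℝ)| ≤ g / ρ) →
      Real.log ((pr S f ^ P : ℕ) : ℝ) ≤ A := by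
    intro f hf
    push_cast
    rw [Real.log_pow]
    have h1 := log_pr_le S hSp f (fun _ => g / ρ) hf
    rw [← Finset.mul_sum] at h1
    calc (P : ℝ) * Real.log (pr S f) ≤ P * (g / ρ * L) := by
          apply mul_le_mul_of_nonneg_left _ (Nat.cast_nonneg _)
          exact h1.trans (mul_le_mul_of_nonneg_left hL (by positivity))
      _ ≤ A := hAv
  have habh : Real.log a + Real.log b ≤ 2 * h := by
    have haR : (0 : ℝ) < a := by exact_mod_cast ha
    have hbR : (0 : ℝ) < b := by exact_mod_cast hb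
    rw [hh]
    push_cast
    have e1 := Real.log_le_log haR (show (a : ℝ) ≤ a + b by linarith)
    have e2 := Real.log_le_log hbR (show (b : ℝ) ≤ a + b by linarith)
    linarith
  have hesum : ∑ p ∈ S, |(((a.factorization p : ℤ) - b.factorization p : ℤ) : ℝ)| * Real.log p
      ≤ 2 * h := by
    refine le_trans ?_ habh
    have hloga : Real.log a = ∑ p ∈ S, (a.factorization p : ℝ) * Real.log p := by
      rw [← log_prod S hSp, self_prod S a ha.ne' haS]
    have hlogb : Real.log b = ∑ p ∈ S, (b.factorization p : ℝ) * Real.log p := by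
      rw [← log_prod S hSp, self_prod S b hb.ne' hbS]
    rw [hloga, hlogb, ← Finset.sum_add_distrib]
    refine Finset.sum_le_sum (fun p hp => ?_)
    rw [← add_mul]
    apply mul_le_mul_of_nonneg_right _ (hlog0 p hp)
    push_cast
    have := abs_add_le (a.factorization p : ℝ) (-(b.factorization p : ℝ))
    rw [abs_neg, ← sub_eq_add_neg, Nat.abs_cast, Nat.abs_cast] at this
    exact this
  have hlogq : ∀ f : ℕ → ℤ, (∀ p ∈ S, |(f p : ℝ)| = |(q p : ℝ)|) →
      Real.log ((pr S f ^ P : ℕ) : ℝ) ≤ B := by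
    intro f hf
    push_cast
    rw [Real.log_pow]
    have h1 := log_pr_le S hSp f
      (fun p => 2 / g * |(((a.factorization p : ℤ) - b.factorization p : ℤ) : ℝ)|) (by
        intro p hp
        rw [hf p hp]
        exact natAbs_bound _ _ _ g ρ hρ hg (hes p hp) (hs p hp))
    have h2 : ∑ p ∈ S, (2 / g * |(((a.factorization p : ℤ) - b.factorization p : ℤ) : ℝ)|) *
        Real.log p ≤ 2 / g * (2 * h) := by
      have e1 : ∑ p ∈ S, (2 / g * |(((a.factorization p : ℤ) - b.factorization p : ℤ) : ℝ)|) *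
        Real.log p = 2 / g *
        ∑ p ∈ S, |(((a.factorization p : ℤ) - b.factorization p : ℤ) : ℝ)| * Real.log p := by
        rw [Finset.mul_sum]
        exact Finset.sum_congr rfl (fun p _ => by ring)
      rw [e1]
      exact mul_le_mul_of_nonneg_left hesum (by positivity)
    calc (P : ℝ) * Real.log (pr S f) ≤ P * (2 / g * (2 * h)) :=
          mul_le_mul_of_nonneg_left (h1.trans h2) (Nat.cast_nonneg _)
      _ = 4 * P * h / g := by ring
      _ ≤ B := hBv
  -- the identity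
  have hid : pr S q ^ g * pr S s * b = pr S (fun p => - s p) * pr S (fun p => - q p) ^ g * a := by
    have ea : a = ∏ p ∈ S, p ^ (a.factorization p) := (self_prod S a ha.ne' haS).symm
    have eb : b = ∏ p ∈ S, p ^ (b.factorization p) := (self_prod S b hb.ne' hbS).symm
    rw [pr_pow, pr_pow, pr, pr]
    conv_lhs => rw [eb]
    conv_rhs => rw [ea]
    rw [← Finset.prod_mul_distrib, ← Finset.prod_mul_distrib, ← Finset.prod_mul_distrib,
      ← Finset.prod_mul_distrib]
    refine Finset.prod_congr rfl (fun p hp => ?_)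
    rw [← pow_add, ← pow_add, ← pow_add, ← pow_add]
    congr 1
    have h1 := hes p hp
    have h2 := Int.toNat_sub_toNat_neg (q p)
    have h3 := Int.toNat_sub_toNat_neg (s p)
    zify
    linear_combination (-1 : ℤ) * h1 + (g : ℤ) * h2 + h3
  -- apply `two_log`
  set a₁ : ℕ := pr S (fun p => - s p) ^ P with ha₁
  set a₂ : ℕ := pr S s ^ P with ha₂
  set b₁ : ℕ := pr S q ^ P with hb₁
  set b₂ : ℕ := pr S (fun p => - q p) ^ P with hb₂
  have hx' : (t : ℤ) ^ x ∣ (b₁ : ℤ) ^ g * a₂ - a₁ * (b₂ : ℤ) ^ g := by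
    have e1 : ((b₁ : ℤ) ^ g * a₂ - a₁ * (b₂ : ℤ) ^ g) * (b : ℤ) ^ P
        = (a₁ : ℤ) * (b₂ : ℤ) ^ g * ((a : ℤ) ^ P - (b : ℤ) ^ P) := by
      have h1 : (b₁ : ℤ) ^ g * a₂ * (b : ℤ) ^ P = (a₁ : ℤ) * (b₂ : ℤ) ^ g * (a : ℤ) ^ P := by
        have h2 := congrArg (fun n : ℕ => (n : ℤ) ^ P) hid
        simp only [ha₁, ha₂, hb₁, hb₂]
        push_cast at h2 ⊢
        calc ((pr S q : ℤ) ^ P) ^ g * (pr S s : ℤ) ^ P * (b : ℤ) ^ P
            = ((pr S q : ℤ) ^ g * (pr S s : ℤ) * b) ^ P := by ring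
          _ = _ := h2
          _ = _ := by ring
      rw [sub_mul, h1]; ring
    have e2 : (t : ℤ) ^ x ∣ (a : ℤ) ^ P - (b : ℤ) ^ P := by
      have e3 : (t : ℤ) ^ x ∣ (a : ℤ) - (-b) := by
        rw [sub_neg_eq_add]
        exact_mod_cast htx
      have e4 := e3.trans (sub_dvd_pow_sub_pow (a : ℤ) (-b) P)
      have e5 : (-(b : ℤ)) ^ P = (b : ℤ) ^ P := by
        rw [hP, pow_mul, pow_mul, neg_sq]
      rwa [e5] at e4
    have e3 : IsCoprime ((t : ℤ) ^ x) ((b : ℤ) ^ P) := by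
      apply IsCoprime.pow
      rw [Nat.isCoprime_iff_coprime]
      exact (Nat.Prime.coprime_iff_not_dvd ht).mpr htb
    apply e3.dvd_of_dvd_mul_right
    rw [e1]
    exact e2.mul_left _
  have hb₁₂ : (t : ℤ) ∣ (b₁ : ℤ) - b₂ := by
    have h1 : ∀ f : ℕ → ℤ, (t : ℤ) ∣ ((pr S f ^ P : ℕ) : ℤ) - 1 := by
      intro f
      apply fermat2 t ht
      exact (Nat.Prime.coprime_iff_not_dvd ht).mp (pr_coprime S hSp t ht htS f).symm
    have h2 := dvd_sub (h1 q) (h1 (fun p => - q p))
    rwa [sub_sub_sub_cancel_right] at h2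
  refine two_log t ht.two_le a₁ a₂ b₁ b₂ g (pow_pos (pr_pos S hSp _) _)
    (pow_pos (pr_pos S hSp _) _) (pow_pos (pr_pos S hSp _) _) (pow_pos (pr_pos S hSp _) _)
    (Nat.Coprime.pow_left _ (pr_coprime S hSp t ht htS _))
    (Nat.Coprime.pow_left _ (pr_coprime S hSp t ht htS _)) hb₁₂ x hx' A B Λ hA hB hΛ
    (hlogs _ (fun p hp => by push_cast; rw [abs_neg]; exact hs p hp)) (hlogs _ hs)
    (hlogq _ (fun p _ => rfl)) (hlogq _ (fun p _ => by push_cast; rw [abs_neg])) hgA hΛ2 ?_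
  -- distinctness
  intro r y r' y' _ _ _ _ heq
  by_contra hne
  have hneg : ((r : ℤ) - r') ≠ 0 ∨ ((y : ℤ) - y') ≠ 0 := by
    by_contra hcon
    push Not at hcon
    apply hne
    constructor
    · have := hcon.1; omega
    · have := hcon.2; omega
  refine dep_case a b t x g ha hb hab ht hta htb htx q s ρ L hρ hg hes hs hL h hh H1 H2
    ((r : ℤ) - r') ((y : ℤ) - y') ?_ hneg
  -- from the relation
  have hpos1 : (0 : ℝ) < a₁ := by exact_mod_cast pow_pos (pr_pos S hSp _) _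
  have hpos2 : (0 : ℝ) < a₂ := by exact_mod_cast pow_pos (pr_pos S hSp _) _
  have hpos3 : (0 : ℝ) < b₁ := by exact_mod_cast pow_pos (pr_pos S hSp _) _
  have hpos4 : (0 : ℝ) < b₂ := by exact_mod_cast pow_pos (pr_pos S hSp _) _
  have hcross : a₁ ^ r * b₁ ^ y * (a₂ ^ r' * b₂ ^ y') = a₁ ^ r' * b₁ ^ y' * (a₂ ^ r * b₂ ^ y) := by
    have h1 : (a₁ : ℝ) ^ r * (b₁ : ℝ) ^ y * ((a₂ : ℝ) ^ r' * (b₂ : ℝ) ^ y')
        = (a₁ : ℝ) ^ r' * (b₁ : ℝ) ^ y' * ((a₂ : ℝ) ^ r * (b₂ : ℝ) ^ y) := by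
      rw [div_pow, div_pow, div_pow, div_pow, div_mul_div_comm, div_mul_div_comm,
        div_eq_div_iff (by positivity) (by positivity)] at heq
      exact heq
    exact_mod_cast h1
  have hprod : ∏ p ∈ S, p ^ ((- s p).toNat * (P * r) + (q p).toNat * (P * y) +
        ((s p).toNat * (P * r') + (- q p).toNat * (P * y')))
      = ∏ p ∈ S, p ^ ((- s p).toNat * (P * r') + (q p).toNat * (P * y') +
        ((s p).toNat * (P * r) + (- q p).toNat * (P * y))) := by
    simp only [pow_add, Finset.prod_mul_distrib]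
    have hh1 : ∀ (f : ℕ → ℤ) (n : ℕ), ∏ p ∈ S, p ^ ((f p).toNat * (P * n)) = (pr S f ^ P) ^ n := by
      intro f n
      rw [← pow_mul, pr_pow]
    rw [hh1 (fun p => - s p), hh1 q, hh1 s, hh1 (fun p => - q p), hh1 (fun p => - s p), hh1 q,
      hh1 s, hh1 (fun p => - q p)]
    exact hcross
  intro p hp
  have h1 := prod_inj S hSp _ _ hprod p hp
  have h2 := Int.toNat_sub_toNat_neg (q p)
  have h3 := Int.toNat_sub_toNat_neg (s p)
  have h4 := congrArg (fun n : ℕ => (n : ℤ)) h1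
  push_cast at h4
  have hPz : (P : ℤ) ≠ 0 := by exact_mod_cast hPpos.ne'
  apply mul_left_cancel₀ hPz
  -- P * ((r - r') s) = P * ((y - y') q)
  linear_combination (-1 : ℤ) * h4 + (-(P : ℤ) * (r - r')) * h3 + (P : ℤ) * (y - y') * h2

end Pool.Agent.H21.EHB
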