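import Pool.Agent.H21.EHB.Sel

set_option autoImplicit false

open Finset BigOperators

namespace Pool.Agent.H21.EHB

/-- Two-logarithm inequality. -/
theorem two_log (t : ℕ) (ht : 2 ≤ t) (a₁ a₂ b₁ b₂ g : ℕ)
    (ha₁0 : 0 < a₁) (ha₂0 : 0 < a₂) (hb₁0 : 0 < b₁) (hb₂0 : 0 < b₂)
    (ha₂ : Nat.Coprime a₂ t) (hb₂ : Nat.Coprime b₂ t)
    (hb : (t : ℤ) ∣ (b₁ : ℤ) - b₂) (x : ℕ)
    (hx : (t : ℤ) ^ x ∣ (b₁ : ℤ) ^ g * a₂ - a₁ * (b₂ : ℤ) ^ g)
    (A B Λ : ℝ) (hA : 1 ≤ A) (hB : 1 ≤ B) (hΛ : 1 ≤ Λ)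
    (hA₁ : Real.log a₁ ≤ A) (hA₂ : Real.log a₂ ≤ A) (hB₁ : Real.log b₁ ≤ B)
    (hB₂ : Real.log b₂ ≤ B)
    (hg : 1200 * A * Λ + 1 ≤ g) (hΛ2 : Real.log (4800 * g * B * Λ) ≤ Λ)
    (hdist : ∀ r s r' s' : ℕ, (r : ℝ) < 1200 * B * Λ + 1 → (s : ℝ) < g →
      (r' : ℝ) < 1200 * B * Λ + 1 → (s' : ℝ) < g →
      ((a₁ : ℝ) / a₂) ^ r * ((b₁ : ℝ) / b₂) ^ s = ((a₁ : ℝ) / a₂) ^ r' * ((b₁ : ℝ) / b₂) ^ s' →
      r = r' ∧ s = s') :
    (x : ℝ) < 1400000 * A * B * Λ ^ 2 := by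
  by_contra hcon
  push Not at hcon
  have hA0 : 0 < A := by linarith
  have hB0 : 0 < B := by linarith
  have hΛ0 : 0 < Λ := by linarith
  have hAB : 1 ≤ A * B := by nlinarith
  have hABΛ : 1 ≤ A * B * Λ := by nlinarith
  set R₁ : ℕ := ⌈1200 * B * Λ⌉₊ with hR₁
  set S₁ : ℕ := ⌈1200 * A * Λ⌉₊ with hS₁
  set q : ℕ := ⌈16 * Λ⌉₊ with hq
  set K : ℕ := ⌈76800 * (A * B * Λ)⌉₊ with hK
  have hR₁l : 1200 * B * Λ ≤ R₁ := Nat.le_ceil _
  have hR₁u : (R₁ : ℝ) < 1200 * B * Λ + 1 := Nat.ceil_lt_add_one (by positivity)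
  have hS₁l : 1200 * A * Λ ≤ S₁ := Nat.le_ceil _
  have hS₁u : (S₁ : ℝ) < 1200 * A * Λ + 1 := Nat.ceil_lt_add_one (by positivity)
  have hql : 16 * Λ ≤ q := Nat.le_ceil _
  have hqu : (q : ℝ) < 16 * Λ + 1 := Nat.ceil_lt_add_one (by positivity)
  have hKl : 76800 * (A * B * Λ) ≤ K := Nat.le_ceil _
  have hKu : (K : ℝ) < 76800 * (A * B * Λ) + 1 := Nat.ceil_lt_add_one (by positivity)
  have hS₁g : S₁ ≤ g := by
    have : (S₁ : ℝ) < g := lt_of_lt_of_le hS₁u hg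
    exact_mod_cast this.le
  have hK0 : (0 : ℝ) ≤ K := Nat.cast_nonneg _
  have hq0 : (0 : ℝ) ≤ q := Nat.cast_nonneg _
  have hRS : 1440000 * (A * B * Λ ^ 2) ≤ (R₁ : ℝ) * S₁ := by
    calc 1440000 * (A * B * Λ ^ 2) = (1200 * B * Λ) * (1200 * A * Λ) := by ring
      _ ≤ (R₁ : ℝ) * S₁ := mul_le_mul hR₁l hS₁l (by positivity) (by positivity)
  have hKq : (K : ℝ) * (q + 1) ≤ 1400000 * (A * B * Λ ^ 2) := by
    have h1 : (K : ℝ) ≤ 76801 * (A * B * Λ) := by linarith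
    have h2 : (q : ℝ) + 1 ≤ 18 * Λ := by linarith
    calc (K : ℝ) * (q + 1) ≤ (76801 * (A * B * Λ)) * (18 * Λ) :=
          mul_le_mul h1 h2 (by positivity) (by positivity)
      _ = 1382418 * (A * B * Λ ^ 2) := by ring
      _ ≤ 1400000 * (A * B * Λ ^ 2) := by
          apply mul_le_mul_of_nonneg_right (by norm_num) (by positivity)
  have hΛΛ : Λ ≤ A * B * Λ ^ 2 := by nlinarith [mul_le_mul hABΛ hΛ (by norm_num) (by positivity)]
  have hQ : q + 1 ≤ R₁ * S₁ := by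
    have h1 : ((q + 1 : ℕ) : ℝ) ≤ ((R₁ * S₁ : ℕ) : ℝ) := by
      push_cast
      linarith
    exact_mod_cast h1
  have hKQ : K * (q + 1) ≤ R₁ * S₁ := by
    have h1 : ((K * (q + 1) : ℕ) : ℝ) ≤ ((R₁ * S₁ : ℕ) : ℝ) := by
      push_cast
      have : 0 ≤ A * B * Λ ^ 2 := by positivity
      linarith
    exact_mod_cast h1
  have hKx : K * (q + 1) ≤ x := by
    have h1 : ((K * (q + 1) : ℕ) : ℝ) ≤ ((x : ℕ) : ℝ) := by
      push_cast
      linarith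
    exact_mod_cast h1
  have hK1 : 1 ≤ K := by
    have : (1 : ℝ) ≤ K := by linarith
    exact_mod_cast this
  have key := two_log_raw t (by omega) a₁ a₂ b₁ b₂ g ha₁0 ha₂0 hb₁0 hb₂0 ha₂ hb₂ hb x hx
    K q R₁ S₁ R₁ S₁ hK1 (by
      intro r s r' s' hr hs hr' hs' heq
      have hg1 : ∀ n : ℕ, n < S₁ → (n : ℝ) < g := fun n hn => by
        have : n < g := lt_of_lt_of_le hn hS₁g
        exact_mod_cast this
      have hr1 : ∀ n : ℕ, n < R₁ → (n : ℝ) < 1200 * B * Λ + 1 := fun n hn => by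
        have : (n : ℝ) < R₁ := by exact_mod_cast hn
        linarith
      exact hdist r s r' s' (hr1 r hr) (hg1 s hs) (hr1 r' hr') (hg1 s' hs') heq)
    hQ hKQ hS₁g hKx A B hA₁ hA₂ hB₁ hB₂
  -- estimates
  have hKR : (1 : ℝ) ≤ K := by exact_mod_cast hK1
  have hq16 : (16 : ℝ) ≤ q := by linarith
  have hKq1 : (1000000 : ℝ) ≤ K * q := by nlinarith
  have h1 : Real.log (((S₁ + S₁) + g * (R₁ + R₁) : ℕ)) ≤ Λ := by
    refine le_trans (Real.log_le_log ?_ ?_) hΛ2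
    · have : 0 < (S₁ + S₁) + g * (R₁ + R₁) := by
        have : 0 < S₁ := by
          have : (0 : ℝ) < S₁ := lt_of_lt_of_le (by positivity) hS₁l
          exact_mod_cast this
        omega
      exact_mod_cast this
    · push_cast
      have hgR : (0 : ℝ) < g := by nlinarith [mul_pos hA0 hΛ0]
      have h2 : (S₁ : ℝ) ≤ g := by exact_mod_cast hS₁g
      have h3 : (R₁ : ℝ) + 1 ≤ 1200 * B * Λ + 2 := by linarith
      have h4 : (2 : ℝ) ≤ 1200 * B * Λ := by nlinarith [mul_le_mul hB hΛ (by norm_num) hB0.le]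
      calc (S₁ : ℝ) + S₁ + g * (R₁ + R₁) ≤ g + g + g * (R₁ + R₁) := by linarith
        _ = 2 * g * (R₁ + 1) := by ring
        _ ≤ 2 * g * (1200 * B * Λ + 2) := by
            apply mul_le_mul_of_nonneg_left h3 (by positivity)
        _ ≤ 2 * g * (1200 * B * Λ + 1200 * B * Λ) := by
            apply mul_le_mul_of_nonneg_left (by linarith) (by positivity)
        _ = 4800 * g * B * Λ := by ring
  have h2 : ((R₁ : ℝ) + R₁) * A + (S₁ + S₁) * B ≤ 0.0626 * K := by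
    have e1 : (R₁ : ℝ) * A ≤ (1200 * B * Λ + 1) * A := mul_le_mul_of_nonneg_right hR₁u.le hA0.le
    have e2 : (S₁ : ℝ) * B ≤ (1200 * A * Λ + 1) * B := mul_le_mul_of_nonneg_right hS₁u.le hB0.le
    have e3 : A ≤ A * B * Λ := by nlinarith [mul_le_mul hB hΛ (by norm_num) hB0.le]
    have e4 : B ≤ A * B * Λ := by nlinarith [mul_le_mul hA hΛ (by norm_num) hA0.le]
    nlinarith
  have h3 : Real.log ((K : ℝ) * (q + 1)) ≤ 0.03 * (K * q) := by
    have hy : (0 : ℝ) < K * (q + 1) := by positivity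
    have e1 := Real.log_le_sub_one_of_pos (show (0 : ℝ) < K * (q + 1) / 100 by positivity)
    rw [Real.log_div hy.ne' (by norm_num)] at e1
    have e2 : Real.log 100 ≤ 5 := by
      have : Real.log 100 ≤ Real.log (Real.exp 5) := by
        apply Real.log_le_log (by norm_num)
        have : (2.7182818283 : ℝ) ^ 5 ≤ Real.exp 5 := by
          have h := Real.exp_one_gt_d9
          calc (2.7182818283 : ℝ) ^ 5 ≤ (Real.exp 1) ^ 5 := by
                apply pow_le_pow_left₀ (by norm_num) h.le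
            _ = Real.exp 5 := by rw [← Real.exp_nat_mul]; norm_num
        norm_num at this
        linarith
      rwa [Real.log_exp] at this
    have e3 : (K : ℝ) * (q + 1) ≤ 2 * (K * q) := by nlinarith
    linarith
  have h4 : (K : ℝ) * Real.log (((S₁ + S₁) + g * (R₁ + R₁) : ℕ)) ≤ K * q / 16 := by
    calc (K : ℝ) * Real.log (((S₁ + S₁) + g * (R₁ + R₁) : ℕ)) ≤ K * Λ :=
          mul_le_mul_of_nonneg_left h1 hK0
      _ ≤ K * (q / 16) := mul_le_mul_of_nonneg_left (by linarith) hK0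
      _ = K * q / 16 := by ring
  have h5 : (q : ℝ) * (((R₁ : ℝ) + R₁) * A + (S₁ + S₁) * B) ≤ 0.0626 * (K * q) := by
    calc (q : ℝ) * (((R₁ : ℝ) + R₁) * A + (S₁ + S₁) * B) ≤ q * (0.0626 * K) :=
          mul_le_mul_of_nonneg_left h2 hq0
      _ = 0.0626 * (K * q) := by ring
  have h6 : Real.log 2 ≤ Real.log t := Real.log_le_log (by norm_num) (by exact_mod_cast ht)
  have h7 : (0.69 : ℝ) ≤ Real.log t := by linarith [Real.log_two_gt_d9]
  have h8 : (K : ℝ) * q / 2 * 0.69 ≤ K * q / 2 * Real.log t :=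
    mul_le_mul_of_nonneg_left h7 (by positivity)
  linarith

end Pool.Agent.H21.EHB
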